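import Mathlib

/-! The decoder obtained from a null space inequality. -/

namespace Pool.Agent.H.MP_d546a0_lc

open Finset

section

variable {n m : ℕ}

/-- restriction to the complement of `T`, with values in `ℓ¹`. -/
noncomputable def outside (T : Finset (Fin n)) : (Fin n → ℝ) →ₗ[ℝ] PiLp 1 (fun _ : Fin n => ℝ) where
  toFun x := WithLp.toLp 1 (fun i => if i ∈ T then 0 else x i)
  map_add' x y := by
    ext i
    simp only [PiLp.toLp_apply, PiLp.add_apply, Pi.add_apply]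
    split_ifs <;> simp
  map_smul' c x := by
    ext i
    simp only [PiLp.toLp_apply, PiLp.smul_apply, Pi.smul_apply, smul_eq_mul, RingHom.id_apply]
    split_ifs <;> simp

lemma norm_outside (T : Finset (Fin n)) (x : Fin n → ℝ) :
    ‖outside T x‖ = ∑ i ∈ Tᶜ, |x i| := by
  rw [PiLp.norm_eq_of_L1]
  have h1 : ∀ i, ‖(outside T x) i‖ = if i ∈ Tᶜ then |x i| else 0 := by
    intro i
    simp only [outside, LinearMap.coe_mk, AddHom.coe_mk, PiLp.toLp_apply, mem_compl]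
    split_ifs <;> simp_all
  simp_rw [h1]
  rw [Finset.sum_ite_mem, univ_inter]

lemma min_exists (A : Matrix (Fin m) (Fin n) ℝ) (T : Finset (Fin n)) (x0 : Fin n → ℝ) :
    ∃ u, A.mulVec u = A.mulVec x0 ∧ ∀ x, A.mulVec x = A.mulVec x0 →
      ∑ i ∈ Tᶜ, |u i| ≤ ∑ i ∈ Tᶜ, |x i| := by
  set K := LinearMap.ker (Matrix.mulVecLin A) with hK
  set V := K.map (outside T) with hV
  have hclosed : IsClosed (V : Set (PiLp 1 (fun _ : Fin n => ℝ))) :=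
    Submodule.closed_of_finiteDimensional V
  obtain ⟨w, hw, hw2⟩ := hclosed.exists_infDist_eq_dist ⟨0, V.zero_mem⟩ (outside T x0)
  rw [SetLike.mem_coe, hV, Submodule.mem_map] at hw
  obtain ⟨v, hv, rfl⟩ := hw
  rw [hK, LinearMap.mem_ker, Matrix.mulVecLin_apply] at hv
  refine ⟨x0 - v, ?_, ?_⟩
  · rw [Matrix.mulVec_sub, hv, sub_zero]
  · intro x hx
    rw [← norm_outside, ← norm_outside]
    have h1 : outside T (x0 - x) ∈ V := by
      rw [hV, Submodule.mem_map]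
      refine ⟨x0 - x, ?_, rfl⟩
      rw [hK, LinearMap.mem_ker, Matrix.mulVecLin_apply, Matrix.mulVec_sub, hx, sub_self]
    have h2 := Metric.infDist_le_dist_of_mem (x := outside T x0) (s := (V : Set _))
      (SetLike.mem_coe.mpr h1)
    rw [hw2, dist_eq_norm, dist_eq_norm, ← map_sub, ← map_sub] at h2
    have h3 : x0 - (x0 - x) = x := by abel
    rwa [h3] at h2

theorem decoder (A : Matrix (Fin m) (Fin n) ℝ) (𝒯 : Finset (Finset (Fin n))) (C : ℝ) (hC : 0 ≤ C)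
    (hA : ∀ z, A.mulVec z = 0 → ∀ T ∈ 𝒯, ∀ T' ∈ 𝒯,
      ∑ i, |z i| ≤ C * ∑ i ∈ (T ∪ T')ᶜ, |z i|) :
    ∃ R : (Fin m → ℝ) → (Fin n → ℝ), ∀ x x' : Fin n → ℝ,
      (∃ T ∈ 𝒯, ∀ i, i ∉ T → x' i = 0) →
      ∑ i, |R (A.mulVec x) i - x i| ≤ 2 * C * ∑ i, |x' i - x i| := by
  classical
  have h1 : ∀ y : Fin m → ℝ, ∃ u : Fin n → ℝ, (∃ x0, A.mulVec x0 = y) → 𝒯.Nonempty →
      A.mulVec u = y ∧ ∃ T₀ ∈ 𝒯, ∀ x, A.mulVec x = y → ∀ T ∈ 𝒯,
        ∑ i ∈ T₀ᶜ, |u i| ≤ ∑ i ∈ Tᶜ, |x i| := by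
    intro y
    by_cases hy : ∃ x0, A.mulVec x0 = y
    · by_cases h𝒯 : 𝒯.Nonempty
      · obtain ⟨x0, rfl⟩ := hy
        choose u hu1 hu2 using fun T => min_exists A T x0
        obtain ⟨T₀, hT₀, hmin⟩ := exists_min_image 𝒯 (fun T => ∑ i ∈ Tᶜ, |u T i|) h𝒯
        refine ⟨u T₀, fun _ _ => ⟨hu1 T₀, T₀, hT₀, ?_⟩⟩
        intro x hx T hT
        exact (hmin T hT).trans (hu2 T x hx)
      · exact ⟨0, fun _ h => absurd h h𝒯⟩
    · exact ⟨0, fun h => absurd h hy⟩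
  choose R hR using h1
  refine ⟨R, ?_⟩
  rintro x x' ⟨T, hT, hx'⟩
  obtain ⟨hu, T₀, hT₀, hmin⟩ := hR (A.mulVec x) ⟨x, rfl⟩ ⟨T, hT⟩
  set u := R (A.mulVec x) with hudef
  have h2 : ∑ i, |u i - x i| ≤ C * ∑ i ∈ (T ∪ T₀)ᶜ, |u i - x i| := by
    have := hA (u - x) (by rw [Matrix.mulVec_sub, hu, sub_self]) T hT T₀ hT₀
    simpa using this
  have h3 : ∑ i ∈ (T ∪ T₀)ᶜ, |u i - x i| ≤ ∑ i ∈ T₀ᶜ, |u i| + ∑ i ∈ Tᶜ, |x i| := by
    calc ∑ i ∈ (T ∪ T₀)ᶜ, |u i - x i| ≤ ∑ i ∈ (T ∪ T₀)ᶜ, (|u i| + |x i|) :=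
          sum_le_sum (fun i _ => abs_sub _ _)
      _ = ∑ i ∈ (T ∪ T₀)ᶜ, |u i| + ∑ i ∈ (T ∪ T₀)ᶜ, |x i| := sum_add_distrib
      _ ≤ ∑ i ∈ T₀ᶜ, |u i| + ∑ i ∈ Tᶜ, |x i| := by
          apply add_le_add
          · apply sum_le_sum_of_subset_of_nonneg
            · exact compl_subset_compl.mpr subset_union_right
            · exact fun _ _ _ => abs_nonneg _
          · apply sum_le_sum_of_subset_of_nonneg
            · exact compl_subset_compl.mpr subset_union_left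
            · exact fun _ _ _ => abs_nonneg _
  have h4 := hmin x rfl T hT
  have h5 : ∑ i ∈ Tᶜ, |x i| ≤ ∑ i, |x' i - x i| := by
    have h6 : ∑ i ∈ Tᶜ, |x i| = ∑ i ∈ Tᶜ, |x' i - x i| := by
      apply sum_congr rfl
      intro i hi
      rw [hx' i (mem_compl.mp hi), zero_sub, abs_neg]
    rw [h6]
    exact sum_le_sum_of_subset_of_nonneg (subset_univ _) (fun _ _ _ => abs_nonneg _)
  calc ∑ i, |u i - x i| ≤ C * ∑ i ∈ (T ∪ T₀)ᶜ, |u i - x i| := h2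
    _ ≤ C * (2 * ∑ i, |x' i - x i|) := by
        apply mul_le_mul_of_nonneg_left _ hC
        linarith
    _ = _ := by ring

end

end Pool.Agent.H.MP_d546a0_lc
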