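import Pool.Agent.H.MP_d546a0_lc.Design
import Pool.Agent.H.MP_d546a0_lc.Decoder

/-! The layered matrix and the final theorem. -/

namespace Pool.Agent.H.MP_d546a0_lc

set_option linter.unusedSectionVars false

open Finset

/-- degree parameters. -/
noncomputable def rho (L g l : ℕ) : ℕ := ⌈(g : ℝ) ^ (((l + 1 : ℕ) : ℝ) / L)⌉₊

/-- size parameters. -/
noncomputable def sz (k L g l : ℕ) : ℕ := if l + 1 = L then 1 else ⌈(k : ℝ) / rho L g l⌉₊

/-- bounds for the unresolved sets. -/
noncomputable def bd (k L g : ℕ) : ℕ → ℕ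
  | 0 => 2 * k
  | l + 1 => 2 * sz k L g l

section

variable (k L g : ℕ) (hk : 1 ≤ k) (hL : 1 ≤ L) (hg : 1 ≤ g)

include hg in
lemma rho_ge (l : ℕ) : (g : ℝ) ^ (((l + 1 : ℕ) : ℝ) / L) ≤ rho L g l := Nat.le_ceil _

include hg in
lemma one_le_gpow (x : ℝ) (hx : 0 ≤ x) : 1 ≤ (g : ℝ) ^ x :=
  Real.one_le_rpow (by exact_mod_cast hg) hx

include hg in
lemma rho_le (l : ℕ) : (rho L g l : ℝ) ≤ 2 * (g : ℝ) ^ (((l + 1 : ℕ) : ℝ) / L) := by
  have h1 := one_le_gpow g hg (((l + 1 : ℕ) : ℝ) / L) (by positivity)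
  have h2 := Nat.ceil_lt_add_one (a := (g : ℝ) ^ (((l + 1 : ℕ) : ℝ) / L)) (by linarith)
  unfold rho
  linarith

include hg in
lemma rho_pos (l : ℕ) : 1 ≤ rho L g l := by
  have h1 := one_le_gpow g hg (((l + 1 : ℕ) : ℝ) / L) (by positivity)
  have h2 := rho_ge L g hg l
  have h3 : (1 : ℝ) ≤ rho L g l := h1.trans h2
  exact_mod_cast h3

include hL in
lemma rho_last : rho L g (L - 1) = g := by
  unfold rho
  have h1 : L - 1 + 1 = L := by omega
  rw [h1]
  have hL0 : (L : ℝ) ≠ 0 := by
    have : 0 < L := hL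
    exact_mod_cast this.ne'
  rw [div_self hL0, Real.rpow_one, Nat.ceil_natCast]

include hL hg in
lemma rho_le_g (l : ℕ) (hl : l < L) : rho L g l ≤ g := by
  unfold rho
  apply Nat.ceil_le.mpr
  have hL0 : (0 : ℝ) < L := by exact_mod_cast hL
  calc (g : ℝ) ^ (((l + 1 : ℕ) : ℝ) / L) ≤ (g : ℝ) ^ (1 : ℝ) := by
        apply Real.rpow_le_rpow_of_exponent_le (by exact_mod_cast hg)
        rw [div_le_one hL0]
        exact_mod_cast hl
    _ = g := Real.rpow_one _

include hg in
lemma rho_mono (l : ℕ) : rho L g l ≤ rho L g (l + 1) := by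
  unfold rho
  apply Nat.ceil_mono
  apply Real.rpow_le_rpow_of_exponent_le (by exact_mod_cast hg)
  apply div_le_div_of_nonneg_right _ (Nat.cast_nonneg L)
  push_cast
  linarith

include hk hg in
lemma sz_pos (l : ℕ) : 1 ≤ sz k L g l := by
  unfold sz
  split_ifs
  · exact le_rfl
  · apply Nat.one_le_ceil_iff.mpr
    have h1 : (0 : ℝ) < k := by exact_mod_cast hk
    have h2 : (0 : ℝ) < rho L g l := by exact_mod_cast rho_pos L g hg l
    positivity

include hg in
lemma k_le_rho_sz (l : ℕ) (hl : l + 1 ≠ L) : k ≤ rho L g l * sz k L g l := by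
  unfold sz
  rw [if_neg hl]
  have h2 : (0 : ℝ) < rho L g l := by exact_mod_cast rho_pos L g hg l
  have h1 := Nat.le_ceil ((k : ℝ) / rho L g l)
  rw [div_le_iff₀ h2] at h1
  have h3 : (k : ℝ) ≤ rho L g l * (⌈(k : ℝ) / rho L g l⌉₊ : ℕ) := by linarith
  exact_mod_cast h3

include hk hg in
lemma sz_le_bd (l : ℕ) (hl : l < L) : sz k L g l ≤ bd k L g l := by
  cases l with
  | zero =>
    simp only [bd]
    unfold sz
    split_ifs
    · omega
    · have h1 : ⌈(k : ℝ) / rho L g 0⌉₊ ≤ k := by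
        apply Nat.ceil_le.mpr
        apply div_le_self (Nat.cast_nonneg k)
        exact_mod_cast rho_pos L g hg 0
      omega
  | succ l =>
    simp only [bd]
    have h0 := sz_pos k L g hk hg l
    by_cases h : l + 1 + 1 = L
    · have : sz k L g (l + 1) = 1 := by
        unfold sz
        rw [if_pos h]
      omega
    · have h1 : sz k L g (l + 1) ≤ sz k L g l := by
        unfold sz
        rw [if_neg h, if_neg (by omega)]
        apply Nat.ceil_mono
        apply div_le_div_of_nonneg_left (Nat.cast_nonneg k)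
        · exact_mod_cast rho_pos L g hg l
        · exact_mod_cast rho_mono L g hg l
      omega

include hk hg in
lemma bd_pos (l : ℕ) : 1 ≤ bd k L g l := by
  cases l with
  | zero =>
    simp only [bd]
    omega
  | succ l =>
    simp only [bd]
    have := sz_pos k L g hk hg l
    omega

include hL hg in
lemma last_ok : 2 * k ≤ rho L g (L - 1) * bd k L g (L - 1) := by
  rw [rho_last L g hL]
  obtain ⟨l, hl⟩ : ∃ l, L = l + 1 := ⟨L - 1, by omega⟩
  cases l with
  | zero =>
    have : L - 1 = 0 := by omega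
    rw [this]
    simp only [bd]
    exact Nat.le_mul_of_pos_left _ hg
  | succ l =>
    have : L - 1 = l + 1 := by omega
    rw [this]
    simp only [bd]
    have h1 := k_le_rho_sz k L g hg l (by omega)
    have h2 := rho_le_g L g hL hg l (by omega)
    have h3 : rho L g l * sz k L g l ≤ g * sz k L g l := Nat.mul_le_mul_right _ h2
    calc 2 * k ≤ 2 * (g * sz k L g l) := by omega
      _ = g * (2 * sz k L g l) := by ring

include hk hL hg in
lemma rho_bd_le (l : ℕ) (hl : l < L) (hgk : g ≤ k) :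
    (rho L g l : ℝ) * bd k L g l ≤ 8 * k * (g : ℝ) ^ (1 / (L : ℝ)) := by
  have hL0 : (0 : ℝ) < L := by exact_mod_cast hL
  have hg0 : (0 : ℝ) < g := by exact_mod_cast hg
  have hk0 : (0 : ℝ) < k := by exact_mod_cast hk
  have h1 := rho_le L g hg l
  have hone := one_le_gpow g hg (1 / (L : ℝ)) (by positivity)
  cases l with
  | zero =>
    simp only [bd]
    push_cast at h1 ⊢
    nlinarith
  | succ l =>
    simp only [bd]
    have h2 : sz k L g l = ⌈(k : ℝ) / rho L g l⌉₊ := by
      unfold sz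
      rw [if_neg (by omega)]
    have hr0 : (0 : ℝ) < rho L g l := by exact_mod_cast rho_pos L g hg l
    have h3 : (sz k L g l : ℝ) ≤ k / rho L g l + 1 := by
      rw [h2]
      exact (Nat.ceil_lt_add_one (by positivity)).le
    have h4 : (rho L g (l + 1) : ℝ) ≤ k := by
      have : rho L g (l + 1) ≤ k := (rho_le_g L g hL hg _ hl).trans hgk
      exact_mod_cast this
    have h5 : (rho L g (l + 1) : ℝ) ≤ 2 * (g : ℝ) ^ (1 / (L : ℝ)) * rho L g l := by
      refine h1.trans ?_
      have h6 : (g : ℝ) ^ (((l + 1 + 1 : ℕ) : ℝ) / L) =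
          (g : ℝ) ^ (1 / (L : ℝ)) * (g : ℝ) ^ (((l + 1 : ℕ) : ℝ) / L) := by
        rw [← Real.rpow_add hg0]
        congr 1
        push_cast
        ring
      rw [h6]
      have h7 := rho_ge L g hg l
      have h8 : 0 ≤ (g : ℝ) ^ (1 / (L : ℝ)) := by linarith
      nlinarith
    have h9 : (rho L g (l + 1) : ℝ) * (k / rho L g l) ≤ 2 * k * (g : ℝ) ^ (1 / (L : ℝ)) := by
      calc (rho L g (l + 1) : ℝ) * (k / rho L g l) ≤
            (2 * (g : ℝ) ^ (1 / (L : ℝ)) * rho L g l) * (k / rho L g l) :=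
            mul_le_mul_of_nonneg_right h5 (by positivity)
        _ = _ := by
            field_simp
    push_cast
    have hr1 : (0 : ℝ) ≤ rho L g (l + 1) := Nat.cast_nonneg _
    calc (rho L g (l + 1) : ℝ) * (2 * sz k L g l) ≤
          (rho L g (l + 1) : ℝ) * (2 * (k / rho L g l + 1)) := by
          apply mul_le_mul_of_nonneg_left _ hr1
          linarith
      _ = 2 * ((rho L g (l + 1) : ℝ) * (k / rho L g l)) + 2 * rho L g (l + 1) := by ring
      _ ≤ 2 * (2 * k * (g : ℝ) ^ (1 / (L : ℝ))) + 2 * k := by linarith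
      _ ≤ 8 * k * (g : ℝ) ^ (1 / (L : ℝ)) := by nlinarith

include hk hL hg in
/-- all the hash functions. -/
theorem exists_family (n : ℕ) (hn : n ≤ k * 2 ^ g) :
    ∃ H : ∀ l, Fin n × Fin (6 * L * rho L g l) → Fin (4608 * L * bd k L g l),
      ∀ l < L, ∀ T : Finset (Fin n), IsRooted T → T.card ≤ 2 * k →
        ∀ S ⊆ T, sz k L g l ≤ S.card → S.card ≤ bd k L g l →
          6 * L * rho L g l * S.card < (nb (H l) S).card + rho L g l * S.card := by
  have h1 : ∀ l, ∃ H : Fin n × Fin (6 * L * rho L g l) → Fin (4608 * L * bd k L g l),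
      l < L → ∀ T : Finset (Fin n), IsRooted T → T.card ≤ 2 * k →
        ∀ S ⊆ T, sz k L g l ≤ S.card → S.card ≤ bd k L g l →
          6 * L * rho L g l * S.card < (nb H S).card + rho L g l * S.card := by
    intro l
    by_cases hl : l + 1 = L
    · have hl' : l = L - 1 := by omega
      have hrl : rho L g l = g := by
        rw [hl']
        exact rho_last L g hL
      have hlast := last_ok k L g hL hg
      rw [← hl'] at hlast
      obtain ⟨H, hH⟩ := exists_last n k L (rho L g l) (bd k L g l) hL (bd_pos k L g hk hg l)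
        (rho_pos L g hg l) (by rw [hrl]; exact hn) hlast
      refine ⟨H, fun _ T _ _ S _ hs1 hs2 => hH S ?_ hs2⟩
      exact (sz_pos k L g hk hg l).trans hs1
    · obtain ⟨H, hH⟩ := exists_mid n k L (rho L g l) (bd k L g l) (sz k L g l) hk hL
        (bd_pos k L g hk hg l) (k_le_rho_sz k L g hg l hl)
      exact ⟨H, fun _ => hH⟩
  choose H hH using h1
  exact ⟨H, hH⟩

end

/-- matrix with the null space inequality. -/
theorem exists_matrix (k L g : ℕ) (hk : 1 ≤ k) (hL : 1 ≤ L) (hg : 1 ≤ g) (hgk : g ≤ k)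
    (n : ℕ) (hn : n ≤ k * 2 ^ g) :
    ∃ m : ℕ, (m : ℝ) ≤ 221184 * L ^ 3 * k * (g : ℝ) ^ (1 / (L : ℝ)) ∧
      ∃ A : Matrix (Fin m) (Fin n) ℝ, ∀ z, A.mulVec z = 0 → ∀ T : Finset (Fin n), IsRooted T →
        T.card ≤ 2 * k → ∑ i, |z i| ≤ 4 * L * ∑ i ∈ Tᶜ, |z i| := by
  classical
  obtain ⟨H, hH⟩ := exists_family k L g hk hL hg n hn
  set ι := (l : Fin L) × (Fin (6 * L * rho L g l) × Fin (4608 * L * bd k L g l)) with hι
  set e := Fintype.equivFin ι with he
  refine ⟨Fintype.card ι, ?_, ?_⟩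
  · have hcard : Fintype.card ι =
        ∑ l : Fin L, Fintype.card (Fin (6 * L * rho L g l) × Fin (4608 * L * bd k L g l)) :=
      Fintype.card_sigma
    rw [hcard]
    push_cast
    have h1 : ∀ l : Fin L, (Fintype.card (Fin (6 * L * rho L g l) × Fin (4608 * L * bd k L g l)) : ℝ)
        ≤ 221184 * L ^ 2 * k * (g : ℝ) ^ (1 / (L : ℝ)) := by
      intro l
      rw [Fintype.card_prod, Fintype.card_fin, Fintype.card_fin]
      have h2 := rho_bd_le k L g hk hL hg l l.2 hgk
      push_cast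
      calc (6 * L * rho L g l : ℝ) * (4608 * L * bd k L g l) =
            27648 * L ^ 2 * ((rho L g l : ℝ) * bd k L g l) := by ring
        _ ≤ 27648 * L ^ 2 * (8 * k * (g : ℝ) ^ (1 / (L : ℝ))) :=
            mul_le_mul_of_nonneg_left h2 (by positivity)
        _ = _ := by ring
    refine (sum_le_sum (fun l _ => h1 l)).trans ?_
    rw [sum_const, card_univ, Fintype.card_fin, nsmul_eq_mul]
    apply le_of_eq
    ring
  · set B : ι → Fin n → ℝ := fun x j => if H x.1 (j, x.2.1) = x.2.2 then 1 else 0 with hB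
    refine ⟨fun i j => B (e.symm i) j, ?_⟩
    intro z hz T hT hTk
    apply layers_nsp L hL (rho L g) (bd k L g) (sz k L g) (fun l => 4608 * L * bd k L g l)
      (fun l _ => rho_pos L g hg l) H T (by simpa [bd] using hTk)
      (fun l hl S hST hs1 hs2 => hH l hl T hT hTk S hST hs1 hs2)
      (fun l hl => by simp [bd])
      (fun l hl => sz_le_bd k L g hk hg l hl)
      (by
        unfold sz
        rw [if_pos (by omega)]) z
    intro l hl c
    have h1 := congrFun hz (e ⟨⟨l, hl⟩, c⟩)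
    simp only [Matrix.mulVec, dotProduct, Pi.zero_apply] at h1
    rw [Equiv.symm_apply_apply] at h1
    simp only [hB, ite_mul, one_mul, zero_mul] at h1
    exact h1

end Pool.Agent.H.MP_d546a0_lc
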