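import Mathlib

/-! Counting rooted subtrees of the binary tree. -/

namespace Pool.Agent.H.MP_d546a0_lc

open Finset

/-- node sets of binary trees, rooted at `v`, children of `v` being `2 v` and `2 v + 1`. -/
def toSet : BinaryTree Unit → ℕ → Finset ℕ
  | .nil, _ => ∅
  | .node _ a b, v => insert v (toSet a (2 * v) ∪ toSet b (2 * v + 1))

lemma card_toSet_le (t : BinaryTree Unit) : ∀ v, (toSet t v).card ≤ t.numNodes := by
  induction t with
  | nil => intro v; simp [toSet]
  | node x a b iha ihb =>
    intro v
    unfold toSet
    refine (card_insert_le _ _).trans ?_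
    have h1 := card_union_le (toSet a (2 * v)) (toSet b (2 * v + 1))
    have h2 := iha (2 * v)
    have h3 := ihb (2 * v + 1)
    simp only [BinaryTree.numNodes]
    omega

lemma div_pow_le (w j : ℕ) : w / 2 ^ j ≤ w := Nat.div_le_self _ _

lemma exists_shape : ∀ (s : ℕ) (X : Finset ℕ) (v : ℕ), X.card = s → 1 ≤ v →
    (∀ w ∈ X, ∃ j, w / 2 ^ j = v) → (∀ w ∈ X, w ≠ v → w / 2 ∈ X) →
    ∃ t : BinaryTree Unit, t.numNodes = s ∧ toSet t v = X := by
  classical
  intro s
  induction s using Nat.strong_induction_on with
  | _ s ih =>
    intro X v hs hv hdesc hclosed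
    rcases X.eq_empty_or_nonempty with rfl | hne
    · refine ⟨.nil, ?_, ?_⟩
      · simp at hs
        simp [BinaryTree.numNodes, ← hs]
      · simp [toSet]
    · -- the root belongs to `X`
      have hroot : v ∈ X := by
        have key : ∀ w, w ∈ X → v ∈ X := by
          intro w
          induction w using Nat.strong_induction_on with
          | _ w ihw =>
            intro hw
            by_cases hwv : w = v
            · rwa [← hwv]
            · have h1 := hclosed w hw hwv
              obtain ⟨j, hj⟩ := hdesc w hw
              have hw1 : 1 ≤ w := by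
                have := div_pow_le w j
                omega
              exact ihw (w / 2) (by omega) h1
        obtain ⟨w, hw⟩ := hne
        exact key w hw
      set XL := X.filter (fun w => ∃ j, w / 2 ^ j = 2 * v) with hXL
      set XR := X.filter (fun w => ∃ j, w / 2 ^ j = 2 * v + 1) with hXR
      have hvL : v ∉ XL := by
        rw [hXL, mem_filter]
        rintro ⟨_, j, hj⟩
        have := div_pow_le v j
        omega
      have hvR : v ∉ XR := by
        rw [hXR, mem_filter]
        rintro ⟨_, j, hj⟩
        have := div_pow_le v j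
        omega
      have hdisj : Disjoint XL XR := by
        rw [Finset.disjoint_left]
        intro w hwL hwR
        rw [hXL, mem_filter] at hwL
        rw [hXR, mem_filter] at hwR
        obtain ⟨_, j, hj⟩ := hwL
        obtain ⟨_, j', hj'⟩ := hwR
        rcases le_total j j' with h | h
        · obtain ⟨d, rfl⟩ := Nat.exists_eq_add_of_le h
          rw [pow_add, ← Nat.div_div_eq_div_mul, hj] at hj'
          have := div_pow_le (2 * v) d
          omega
        · obtain ⟨d, rfl⟩ := Nat.exists_eq_add_of_le h
          rw [pow_add, ← Nat.div_div_eq_div_mul, hj'] at hj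
          rcases Nat.eq_zero_or_pos d with rfl | hd
          · simp at hj
          · have h2 : (2 * v + 1) / 2 ^ d ≤ (2 * v + 1) / 2 := by
              apply Nat.div_le_div_left
              · calc 2 = 2 ^ 1 := by norm_num
                  _ ≤ 2 ^ d := Nat.pow_le_pow_right (by norm_num) hd
              · norm_num
            omega
      have hX : X = insert v (XL ∪ XR) := by
        ext w
        rw [mem_insert, mem_union]
        constructor
        · intro hw
          by_cases hwv : w = v
          · exact Or.inl hwv
          · right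
            obtain ⟨j, hj⟩ := hdesc w hw
            rcases Nat.eq_zero_or_pos j with rfl | hj0
            · simp at hj
              exact absurd hj hwv
            · obtain ⟨i, rfl⟩ : ∃ i, j = i + 1 := ⟨j - 1, by omega⟩
              rw [pow_succ, ← Nat.div_div_eq_div_mul] at hj
              have h3 : w / 2 ^ i = 2 * v ∨ w / 2 ^ i = 2 * v + 1 := by omega
              rcases h3 with h3 | h3
              · left
                exact mem_filter.mpr ⟨hw, i, h3⟩
              · right
                exact mem_filter.mpr ⟨hw, i, h3⟩
        · rintro (rfl | h | h)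
          · exact hroot
          · exact (mem_filter.mp h).1
          · exact (mem_filter.mp h).1
      have hcard : X.card = XL.card + XR.card + 1 := by
        have h0 : v ∉ XL ∪ XR := by
          rw [mem_union]
          exact fun h => h.elim hvL hvR
        have h1 : (insert v (XL ∪ XR)).card = XL.card + XR.card + 1 := by
          rw [card_insert_of_notMem h0, card_union_of_disjoint hdisj]
        rwa [← hX] at h1
      -- closedness of the two halves
      have hclL : ∀ w ∈ XL, w ≠ 2 * v → w / 2 ∈ XL := by
        intro w hw hne'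
        rw [hXL, mem_filter] at hw
        obtain ⟨hwX, j, hj⟩ := hw
        have hwv : w ≠ v := by
          rintro rfl
          have := div_pow_le w j
          omega
        rcases Nat.eq_zero_or_pos j with rfl | hj0
        · simp at hj
          exact absurd hj hne'
        · obtain ⟨i, rfl⟩ : ∃ i, j = i + 1 := ⟨j - 1, by omega⟩
          rw [hXL, mem_filter]
          refine ⟨hclosed w hwX hwv, i, ?_⟩
          rw [Nat.div_div_eq_div_mul, ← pow_succ']
          exact hj
      have hclR : ∀ w ∈ XR, w ≠ 2 * v + 1 → w / 2 ∈ XR := by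
        intro w hw hne'
        rw [hXR, mem_filter] at hw
        obtain ⟨hwX, j, hj⟩ := hw
        have hwv : w ≠ v := by
          rintro rfl
          have := div_pow_le w j
          omega
        rcases Nat.eq_zero_or_pos j with rfl | hj0
        · simp at hj
          exact absurd hj hne'
        · obtain ⟨i, rfl⟩ : ∃ i, j = i + 1 := ⟨j - 1, by omega⟩
          rw [hXR, mem_filter]
          refine ⟨hclosed w hwX hwv, i, ?_⟩
          rw [Nat.div_div_eq_div_mul, ← pow_succ']
          exact hj
      obtain ⟨tL, h1, h2⟩ := ih XL.card (by omega) XL (2 * v) rfl (by omega)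
        (fun w hw => (mem_filter.mp hw).2) hclL
      obtain ⟨tR, h3, h4⟩ := ih XR.card (by omega) XR (2 * v + 1) rfl (by omega)
        (fun w hw => (mem_filter.mp hw).2) hclR
      refine ⟨.node () tL tR, ?_, ?_⟩
      · simp only [BinaryTree.numNodes]
        rw [h1, h3]
        omega
      · simp only [toSet]
        rw [h2, h4, ← hX]

/-- rooted subtrees, in the coordinates of the problem (node `v` is `i` with `i.val + 1 = v`). -/
def IsRooted {n : ℕ} (T : Finset (Fin n)) : Prop :=
  (∃ r ∈ T, r.val = 0) ∧ ∀ i ∈ T, i.val ≠ 0 → ∃ j ∈ T, j.val + 1 = (i.val + 1) / 2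

lemma exists_desc : ∀ w : ℕ, 1 ≤ w → ∃ j, w / 2 ^ j = 1 := by
  intro w
  induction w using Nat.strong_induction_on with
  | _ w ih =>
    intro hw
    by_cases h1 : w = 1
    · exact ⟨0, by simp [h1]⟩
    · obtain ⟨j, hj⟩ := ih (w / 2) (by omega) (by omega)
      refine ⟨j + 1, ?_⟩
      rw [pow_succ', ← Nat.div_div_eq_div_mul]
      exact hj

lemma catalan_le (s : ℕ) : catalan s ≤ 4 ^ s := by
  have h1 := succ_mul_catalan_eq_centralBinom s
  have h2 : s.centralBinom ≤ 4 ^ s := by
    unfold Nat.centralBinom
    calc (2 * s).choose s ≤ 2 ^ (2 * s) := Nat.choose_le_two_pow _ _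
      _ = 4 ^ s := by rw [pow_mul]; norm_num
  calc catalan s ≤ (s + 1) * catalan s := Nat.le_mul_of_pos_left _ (by omega)
    _ ≤ 4 ^ s := by rw [h1]; exact h2

open Classical in
/-- subsets of rooted subtrees with at most `K` nodes. -/
noncomputable def fam (n K : ℕ) : Finset (Finset (Fin n)) :=
  univ.filter (fun S => ∃ T : Finset (Fin n), IsRooted T ∧ T.card ≤ K ∧ S ⊆ T)

lemma mem_fam {n K : ℕ} {S : Finset (Fin n)} :
    S ∈ fam n K ↔ ∃ T : Finset (Fin n), IsRooted T ∧ T.card ≤ K ∧ S ⊆ T := by
  classical
  unfold fam
  simp

theorem card_fam_le (n K : ℕ) : (fam n K).card ≤ 2 * 8 ^ K := by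
  classical
  have h1 : fam n K ⊆ (range (K + 1)).biUnion (fun s =>
      (BinaryTree.treesOfNumNodesEq s).biUnion (fun t =>
        (univ.filter (fun i : Fin n => i.val + 1 ∈ toSet t 1)).powerset)) := by
    intro S hS
    rw [mem_fam] at hS
    obtain ⟨T, hT, hTK, hST⟩ := hS
    set X : Finset ℕ := T.image (fun i => i.val + 1) with hX
    have hXc : X.card = T.card := by
      rw [hX, card_image_of_injective]
      intro a b h
      exact Fin.ext (by simpa using h)
    obtain ⟨t, ht1, ht2⟩ := exists_shape X.card X 1 rfl le_rfl
      (by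
        intro w hw
        rw [hX, mem_image] at hw
        obtain ⟨i, _, rfl⟩ := hw
        exact exists_desc _ (by omega))
      (by
        intro w hw hw1
        rw [hX, mem_image] at hw
        obtain ⟨i, hi, rfl⟩ := hw
        obtain ⟨j, hj, hj2⟩ := hT.2 i hi (by omega)
        rw [hX, mem_image]
        exact ⟨j, hj, hj2⟩)
    rw [mem_biUnion]
    refine ⟨X.card, mem_range.mpr (by omega), ?_⟩
    rw [mem_biUnion]
    refine ⟨t, BinaryTree.mem_treesOfNumNodesEq.mpr ht1, ?_⟩
    rw [mem_powerset]
    intro i hi
    rw [mem_filter]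
    refine ⟨mem_univ _, ?_⟩
    rw [ht2, hX, mem_image]
    exact ⟨i, hST hi, rfl⟩
  refine (card_le_card h1).trans ?_
  refine card_biUnion_le.trans ?_
  have h2 : ∀ s ∈ range (K + 1), ((BinaryTree.treesOfNumNodesEq s).biUnion (fun t =>
        (univ.filter (fun i : Fin n => i.val + 1 ∈ toSet t 1)).powerset)).card ≤ 4 ^ s * 2 ^ K := by
    intro s hs
    rw [mem_range] at hs
    refine card_biUnion_le.trans ?_
    have h3 : ∀ t ∈ BinaryTree.treesOfNumNodesEq s,
        ((univ.filter (fun i : Fin n => i.val + 1 ∈ toSet t 1)).powerset).card ≤ 2 ^ K := by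
      intro t ht
      rw [BinaryTree.mem_treesOfNumNodesEq] at ht
      rw [card_powerset]
      apply Nat.pow_le_pow_right (by norm_num)
      have h4 : (univ.filter (fun i : Fin n => i.val + 1 ∈ toSet t 1)).card ≤ (toSet t 1).card := by
        apply card_le_card_of_injOn (fun i => i.val + 1)
        · intro i hi
          rw [Finset.mem_coe, mem_filter] at hi
          exact hi.2
        · intro a _ b _ h
          exact Fin.ext (by simpa using h)
      have h5 := card_toSet_le t 1
      omega
    refine (sum_le_sum h3).trans ?_
    rw [sum_const, smul_eq_mul, BinaryTree.treesOfNumNodesEq_card_eq_catalan]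
    exact Nat.mul_le_mul_right _ (catalan_le s)
  refine (sum_le_sum h2).trans ?_
  rw [← sum_mul]
  have h6 : ∀ K : ℕ, ∑ s ∈ range (K + 1), 4 ^ s ≤ 2 * 4 ^ K := by
    intro K
    induction K with
    | zero => simp
    | succ K ih =>
      rw [Finset.sum_range_succ, pow_succ]
      omega
  calc (∑ s ∈ range (K + 1), 4 ^ s) * 2 ^ K ≤ (2 * 4 ^ K) * 2 ^ K :=
        Nat.mul_le_mul_right _ (h6 K)
    _ = 2 * 8 ^ K := by
        rw [mul_assoc, ← mul_pow]
        norm_num

end Pool.Agent.H.MP_d546a0_lc
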