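import Pool.Agent.H.MP_d546a0_lc.Layers
import Pool.Agent.H.MP_d546a0_lc.Trees

/-! Choice of the parameters and existence of the hash functions. -/

namespace Pool.Agent.H.MP_d546a0_lc

open Finset

lemma pow_self_div_factorial (c : ℕ) : (c : ℝ) ^ c / (c.factorial : ℝ) ≤ 3 ^ c := by
  have h1 := Real.pow_div_factorial_le_exp (c : ℝ) (Nat.cast_nonneg c) c
  refine h1.trans ?_
  have h2 : Real.exp (c : ℝ) = Real.exp 1 ^ c := by
    rw [← Real.exp_nat_mul, mul_one]
  rw [h2]
  apply pow_le_pow_left₀ (Real.exp_pos _).le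
  have := Real.exp_one_lt_d9
  linarith

lemma choose_bound (L c : ℕ) : (((6 * L * c).choose c : ℕ) : ℝ) ≤ (18 * L : ℝ) ^ c := by
  have h1 := Nat.choose_le_pow_div (α := ℝ) c (6 * L * c)
  refine h1.trans ?_
  have h2 : (((6 * L * c : ℕ) : ℝ)) ^ c / (c.factorial : ℝ) =
      (6 * L : ℝ) ^ c * ((c : ℝ) ^ c / (c.factorial : ℝ)) := by
    push_cast
    rw [mul_pow]
    ring
  rw [h2]
  calc (6 * L : ℝ) ^ c * ((c : ℝ) ^ c / (c.factorial : ℝ)) ≤ (6 * L : ℝ) ^ c * 3 ^ c :=
        mul_le_mul_of_nonneg_left (pow_self_div_factorial c) (by positivity)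
    _ = (18 * L : ℝ) ^ c := by
        rw [← mul_pow]
        congr 1
        ring

lemma choose_bound2 (n s : ℕ) (hs : 1 ≤ s) : ((n.choose s : ℕ) : ℝ) ≤ (3 * n / s : ℝ) ^ s := by
  have h1 := Nat.choose_le_pow_div (α := ℝ) s n
  refine h1.trans ?_
  have hs0 : (0 : ℝ) < s := by exact_mod_cast hs
  have h2 := pow_self_div_factorial s
  have h3 : (n : ℝ) ^ s / (s.factorial : ℝ) =
      (n : ℝ) ^ s / (s : ℝ) ^ s * ((s : ℝ) ^ s / (s.factorial : ℝ)) := by
    field_simp
  rw [h3]
  calc (n : ℝ) ^ s / (s : ℝ) ^ s * ((s : ℝ) ^ s / (s.factorial : ℝ)) ≤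
        (n : ℝ) ^ s / (s : ℝ) ^ s * 3 ^ s := mul_le_mul_of_nonneg_left h2 (by positivity)
    _ = (3 * n / s : ℝ) ^ s := by
        rw [div_pow, mul_pow]
        ring

/-- probability bound for one set. -/
lemma term_bound (L ρ b s : ℕ) (hL : 1 ≤ L) (hb : 1 ≤ b) :
    (((6 * L * ρ * s).choose (ρ * s) : ℕ) : ℝ) * ((s : ℝ) / ((4608 * L * b : ℕ) : ℝ)) ^ (ρ * s) ≤
      ((s : ℝ) / (256 * b)) ^ (ρ * s) := by
  have h1 := choose_bound L (ρ * s)
  have h2 : 6 * L * (ρ * s) = 6 * L * ρ * s := by ring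
  rw [h2] at h1
  have hL0 : (0 : ℝ) < L := by exact_mod_cast hL
  have hb0 : (0 : ℝ) < b := by exact_mod_cast hb
  calc (((6 * L * ρ * s).choose (ρ * s) : ℕ) : ℝ) * ((s : ℝ) / ((4608 * L * b : ℕ) : ℝ)) ^ (ρ * s)
      ≤ (18 * L : ℝ) ^ (ρ * s) * ((s : ℝ) / ((4608 * L * b : ℕ) : ℝ)) ^ (ρ * s) :=
        mul_le_mul_of_nonneg_right h1 (by positivity)
    _ = ((s : ℝ) / (256 * b)) ^ (ρ * s) := by
        rw [← mul_pow]
        congr 1
        push_cast
        field_simp
        ring

/-- hash functions for an intermediate layer. -/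
theorem exists_mid (n k L ρ b s' : ℕ) (hk : 1 ≤ k) (hL : 1 ≤ L) (hb : 1 ≤ b)
    (hρs : k ≤ ρ * s') :
    ∃ H : Fin n × Fin (6 * L * ρ) → Fin (4608 * L * b), ∀ T : Finset (Fin n), IsRooted T →
      T.card ≤ 2 * k → ∀ S ⊆ T, s' ≤ S.card → S.card ≤ b →
      6 * L * ρ * S.card < (nb H S).card + ρ * S.card := by
  classical
  set 𝓢 := (fam n (2 * k)).filter (fun S => s' ≤ S.card ∧ S.card ≤ b) with h𝓢
  have hb0 : (0 : ℝ) < b := by exact_mod_cast hb
  obtain ⟨H, hH⟩ := exists_hash (α := Fin n) (r := 6 * L * ρ) (M := 4608 * L * b) (by positivity)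
    𝓢 (fun S => ρ * S.card)
    (by
      intro S _
      apply Nat.mul_le_mul_right
      nlinarith)
    (by
      have h1 : ∀ S ∈ 𝓢, (((6 * L * ρ * S.card).choose (ρ * S.card) : ℕ) : ℝ) *
          ((S.card : ℝ) / ((4608 * L * b : ℕ) : ℝ)) ^ (ρ * S.card) ≤ (1 / 256 : ℝ) ^ k := by
        intro S hS
        rw [h𝓢, mem_filter] at hS
        refine (term_bound L ρ b S.card hL hb).trans ?_
        have h2 : (S.card : ℝ) / (256 * b) ≤ 1 / 256 := by
          rw [div_le_div_iff₀ (by positivity) (by norm_num)]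
          have : (S.card : ℝ) ≤ b := by exact_mod_cast hS.2.2
          linarith
        calc ((S.card : ℝ) / (256 * b)) ^ (ρ * S.card) ≤ (1 / 256 : ℝ) ^ (ρ * S.card) :=
              pow_le_pow_left₀ (by positivity) h2 _
          _ ≤ (1 / 256 : ℝ) ^ k := by
              apply pow_le_pow_of_le_one (by norm_num) (by norm_num)
              exact hρs.trans (Nat.mul_le_mul_left ρ hS.2.1)
      refine lt_of_le_of_lt (sum_le_sum h1) ?_
      rw [sum_const, nsmul_eq_mul]
      have h3 : ((𝓢.card : ℕ) : ℝ) ≤ 2 * 8 ^ (2 * k) := by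
        have h4 : 𝓢.card ≤ 2 * 8 ^ (2 * k) := (card_filter_le _ _).trans (card_fam_le n (2 * k))
        exact_mod_cast h4
      calc ((𝓢.card : ℕ) : ℝ) * (1 / 256 : ℝ) ^ k ≤ 2 * 8 ^ (2 * k) * (1 / 256 : ℝ) ^ k :=
            mul_le_mul_of_nonneg_right h3 (by positivity)
        _ = 2 * (1 / 4 : ℝ) ^ k := by
            rw [pow_mul, mul_assoc, ← mul_pow]
            norm_num
        _ ≤ 2 * (1 / 4 : ℝ) ^ 1 := by
            apply mul_le_mul_of_nonneg_left _ (by norm_num)
            exact pow_le_pow_of_le_one (by norm_num) (by norm_num) hk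
        _ < 1 := by norm_num)
  refine ⟨H, ?_⟩
  intro T hT hTk S hST hs1 hs2
  apply hH S
  rw [h𝓢, mem_filter, mem_fam]
  exact ⟨⟨T, hT, hTk, hST⟩, hs1, hs2⟩

/-- hash functions for the last layer. -/
theorem exists_last (n k L g b : ℕ) (hL : 1 ≤ L) (hb : 1 ≤ b) (hg : 1 ≤ g)
    (hn : n ≤ k * 2 ^ g) (hgb : 2 * k ≤ g * b) :
    ∃ H : Fin n × Fin (6 * L * g) → Fin (4608 * L * b), ∀ S : Finset (Fin n),
      1 ≤ S.card → S.card ≤ b →
      6 * L * g * S.card < (nb H S).card + g * S.card := by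
  classical
  set 𝓢 := (univ : Finset (Fin n)).powerset.filter (fun S => 1 ≤ S.card ∧ S.card ≤ b) with h𝓢
  have hb0 : (0 : ℝ) < b := by exact_mod_cast hb
  obtain ⟨H, hH⟩ := exists_hash (α := Fin n) (r := 6 * L * g) (M := 4608 * L * b) (by positivity)
    𝓢 (fun S => g * S.card)
    (by
      intro S _
      apply Nat.mul_le_mul_right
      nlinarith)
    (by
      have h1 : ∑ S ∈ 𝓢, (((6 * L * g * S.card).choose (g * S.card) : ℕ) : ℝ) *
          ((S.card : ℝ) / ((4608 * L * b : ℕ) : ℝ)) ^ (g * S.card) ≤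
          ∑ S ∈ (univ : Finset (Fin n)).powerset,
            (fun s : ℕ => if 1 ≤ s ∧ s ≤ b then ((s : ℝ) / (256 * b)) ^ (g * s) else 0) S.card := by
        rw [h𝓢, sum_filter]
        apply sum_le_sum
        intro S _
        beta_reduce
        split_ifs
        · exact term_bound L g b S.card hL hb
        · exact le_rfl
      refine lt_of_le_of_lt h1 ?_
      have h0 := sum_powerset_apply_card (x := (univ : Finset (Fin n)))
        (fun s : ℕ => if 1 ≤ s ∧ s ≤ b then ((s : ℝ) / (256 * b)) ^ (g * s) else 0)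
      rw [h0, card_univ, Fintype.card_fin]
      have h2 : ∀ s ∈ range (n + 1), n.choose s • (if 1 ≤ s ∧ s ≤ b then
          ((s : ℝ) / (256 * b)) ^ (g * s) else 0) ≤ (if s = 0 then 0 else (1 / 4 : ℝ) ^ s) := by
        intro s _
        by_cases hs0 : s = 0
        · subst hs0
          simp
        rw [if_neg hs0]
        have hs1 : 1 ≤ s := Nat.one_le_iff_ne_zero.mpr hs0
        by_cases hsb : s ≤ b
        · rw [if_pos ⟨hs1, hsb⟩, nsmul_eq_mul]
          have hspos : (0 : ℝ) < s := by exact_mod_cast hs1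
          have hsb' : (s : ℝ) ≤ b := by exact_mod_cast hsb
          have h3 : ((s : ℝ) / (256 * b)) ^ g ≤ (s / b) * (1 / 256) ^ g := by
            have h4 : (s : ℝ) / (256 * b) = (s / b) * (1 / 256) := by
              field_simp
            rw [h4, mul_pow]
            apply mul_le_mul_of_nonneg_right _ (by positivity)
            have h5 : (s : ℝ) / b ≤ 1 := by
              rw [div_le_one hb0]
              exact hsb'
            calc ((s : ℝ) / b) ^ g ≤ ((s : ℝ) / b) ^ 1 :=
                  pow_le_pow_of_le_one (by positivity) h5 hg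
              _ = s / b := pow_one _
          have h6 : (3 * n / s : ℝ) * (((s : ℝ) / (256 * b)) ^ g) ≤ 1 / 4 := by
            have hnR : (n : ℝ) ≤ k * 2 ^ g := by exact_mod_cast hn
            have hgbR : (2 : ℝ) * k ≤ g * b := by exact_mod_cast hgb
            have h7 : (n : ℝ) / b ≤ g / 2 * 2 ^ g := by
              rw [div_le_iff₀ hb0]
              have h8 : (0 : ℝ) < 2 ^ g := by positivity
              nlinarith
            have h9 : (g : ℝ) ≤ 2 ^ g := by exact_mod_cast (Nat.lt_two_pow_self (n := g)).le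
            calc (3 * n / s : ℝ) * (((s : ℝ) / (256 * b)) ^ g) ≤
                  (3 * n / s : ℝ) * ((s / b) * (1 / 256) ^ g) :=
                  mul_le_mul_of_nonneg_left h3 (by positivity)
              _ = 3 * (n / b) * (1 / 256) ^ g := by
                  field_simp
              _ ≤ 3 * (2 ^ g / 2 * 2 ^ g) * (1 / 256) ^ g := by
                  have h10 : (n : ℝ) / b ≤ 2 ^ g / 2 * 2 ^ g := by
                    refine h7.trans ?_
                    apply mul_le_mul_of_nonneg_right _ (by positivity)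
                    linarith
                  gcongr
              _ = 3 / 2 * (1 / 64 : ℝ) ^ g := by
                  have : (1 / 64 : ℝ) ^ g = 2 ^ g * 2 ^ g * (1 / 256) ^ g := by
                    rw [← mul_pow, ← mul_pow]
                    norm_num
                  rw [this]
                  ring
              _ ≤ 3 / 2 * (1 / 64 : ℝ) ^ 1 := by
                  apply mul_le_mul_of_nonneg_left _ (by norm_num)
                  exact pow_le_pow_of_le_one (by norm_num) (by norm_num) hg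
              _ ≤ 1 / 4 := by norm_num
          calc ((n.choose s : ℕ) : ℝ) * ((s : ℝ) / (256 * b)) ^ (g * s) ≤
                (3 * n / s : ℝ) ^ s * ((s : ℝ) / (256 * b)) ^ (g * s) :=
                mul_le_mul_of_nonneg_right (choose_bound2 n s hs1) (by positivity)
            _ = ((3 * n / s : ℝ) * (((s : ℝ) / (256 * b)) ^ g)) ^ s := by
                rw [mul_pow, pow_mul]
            _ ≤ (1 / 4 : ℝ) ^ s := pow_le_pow_left₀ (by positivity) h6 s
        · rw [if_neg (fun h => hsb h.2)]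
          simp
      refine lt_of_le_of_lt (sum_le_sum h2) ?_
      have h3 : ∀ N : ℕ, ∑ s ∈ range (N + 1), (if s = 0 then 0 else (1 / 4 : ℝ) ^ s) ≤
          1 / 3 - (1 / 3) * (1 / 4 : ℝ) ^ N := by
        intro N
        induction N with
        | zero => simp
        | succ N ih =>
          rw [Finset.sum_range_succ, if_neg (by omega)]
          have : (1 / 4 : ℝ) ^ (N + 1) = (1 / 4) * (1 / 4) ^ N := by rw [pow_succ]; ring
          rw [this]
          linarith
      have h4 := h3 n
      have h5 : (0 : ℝ) < (1 / 4) ^ n := by positivity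
      linarith)
  refine ⟨H, ?_⟩
  intro S hs1 hs2
  apply hH S
  rw [h𝓢, mem_filter, mem_powerset]
  exact ⟨subset_univ _, hs1, hs2⟩

end Pool.Agent.H.MP_d546a0_lc
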