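import Pool.Agent.H.MP_d546a0_lc.Assemble

/-! The recovery theorem. -/

namespace Pool.Agent.H.MP_d546a0_lc

open Finset

lemma rooted_log {n : ℕ} (T : Finset (Fin n)) (hT : IsRooted T) : ∀ w : ℕ, ∀ i ∈ T,
    i.val + 1 = w → Nat.log 2 w + 1 ≤ (T.filter (fun j => j.val + 1 ≤ w)).card := by
  intro w
  induction w using Nat.strong_induction_on with
  | _ w ih =>
    intro i hi hw
    by_cases h1 : w = 1
    · subst h1
      have h2 : i ∈ T.filter (fun j => j.val + 1 ≤ 1) := mem_filter.mpr ⟨hi, by omega⟩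
      have h3 := card_pos.mpr ⟨i, h2⟩
      simp only [Nat.log_one_right]
      omega
    · obtain ⟨j, hj, hj2⟩ := hT.2 i hi (by omega)
      have h2 := ih (w / 2) (by omega) j hj (by omega)
      have h3 : insert i (T.filter (fun j => j.val + 1 ≤ w / 2)) ⊆
          T.filter (fun j => j.val + 1 ≤ w) := by
        intro a ha
        rw [mem_insert] at ha
        rcases ha with rfl | ha
        · exact mem_filter.mpr ⟨hi, by omega⟩
        · rw [mem_filter] at ha
          exact mem_filter.mpr ⟨ha.1, by omega⟩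
      have h4 : i ∉ T.filter (fun j => j.val + 1 ≤ w / 2) := by
        rw [mem_filter]
        rintro ⟨_, h⟩
        omega
      have h5 := card_le_card h3
      rw [card_insert_of_notMem h4] at h5
      have h6 : Nat.log 2 w = Nat.log 2 (w / 2) + 1 := by
        rw [Nat.log_div_base]
        have : 0 < Nat.log 2 w := Nat.log_pos (by norm_num) (by omega)
        omega
      omega

lemma rooted_lt {n : ℕ} (T : Finset (Fin n)) (hT : IsRooted T) (i : Fin n) (hi : i ∈ T) :
    i.val + 1 < 2 ^ T.card := by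
  have h1 := rooted_log T hT (i.val + 1) i hi rfl
  have h2 := Nat.lt_pow_succ_log_self (b := 2) (by norm_num) (i.val + 1)
  refine lt_of_lt_of_le h2 ?_
  apply Nat.pow_le_pow_right (by norm_num)
  exact h1.trans (card_filter_le _ _)

lemma split_sum (n1 n : ℕ) (h : n1 ≤ n) (F : Fin n → ℝ) :
    ∑ j, F j = ∑ i : Fin n1, F (Fin.castLE h i) +
      ∑ j ∈ univ.filter (fun j : Fin n => ¬ j.val < n1), F j := by
  rw [← sum_filter_add_sum_filter_not univ (fun j : Fin n => j.val < n1)]
  congr 1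
  symm
  apply sum_bij (fun i _ => Fin.castLE h i)
  · intro i _
    rw [mem_filter]
    exact ⟨mem_univ _, i.2⟩
  · intro a _ b _ hab
    exact Fin.ext (by simpa [Fin.ext_iff] using hab)
  · intro j hj
    rw [mem_filter] at hj
    exact ⟨⟨j.val, hj.2⟩, mem_univ _, Fin.ext rfl⟩
  · intro i _
    rfl

/-- **Main theorem.** -/
theorem tree_recovery (L : ℕ) (hL : 1 ≤ L) (h k : ℕ) (hk : 1 ≤ k) (hkn : k ≤ 2 ^ h - 1) :
    ∃ m : ℕ, (m : ℝ) ≤ 442368 * L ^ 3 * k *
        (1 + Real.logb 2 (((2 ^ h - 1 : ℕ) : ℝ) / k)) ^ (1 / (L : ℝ)) ∧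
      ∃ A : Matrix (Fin m) (Fin (2 ^ h - 1)) ℝ,
      ∃ R : (Fin m → ℝ) → (Fin (2 ^ h - 1) → ℝ),
        ∀ x x' : Fin (2 ^ h - 1) → ℝ,
          (∃ T : Finset (Fin (2 ^ h - 1)), T.card = k ∧ (∃ r ∈ T, r.val = 0) ∧
             (∀ i ∈ T, i.val ≠ 0 → ∃ j ∈ T, j.val + 1 = (i.val + 1) / 2) ∧
             (∀ i, i ∉ T → x' i = 0)) →
          ∑ i, |R (Matrix.mulVec A x) i - x i| ≤ 8 * L * ∑ i, |x' i - x i| := by
  classical
  set n := 2 ^ h - 1 with hn
  set n1 := 2 ^ (min h k) - 1 with hn1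
  have hn1n : n1 ≤ n := by
    rw [hn, hn1]
    apply Nat.sub_le_sub_right
    exact Nat.pow_le_pow_right (by norm_num) (min_le_left _ _)
  have hk0 : (0 : ℝ) < k := by exact_mod_cast hk
  have hnk : (1 : ℝ) ≤ (n : ℝ) / k := by
    rw [le_div_iff₀ hk0, one_mul]
    exact_mod_cast hkn
  set lg := Real.logb 2 ((n : ℝ) / k) with hlg
  have hlg0 : 0 ≤ lg := Real.logb_nonneg (by norm_num) hnk
  set g0 := ⌈lg⌉₊ with hg0
  set g := min (g0 + 1) k with hg
  have hg1 : 1 ≤ g := le_min (by omega) hk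
  have hgk : g ≤ k := min_le_right _ _
  have hng0 : n ≤ k * 2 ^ g0 := by
    have h1 : (n : ℝ) / k ≤ 2 ^ g0 := by
      have h2 : (n : ℝ) / k = (2 : ℝ) ^ lg := by
        rw [hlg, Real.rpow_logb (by norm_num) (by norm_num) (by linarith)]
      rw [h2, ← Real.rpow_natCast]
      apply Real.rpow_le_rpow_of_exponent_le (by norm_num)
      exact Nat.le_ceil lg
    rw [div_le_iff₀ hk0] at h1
    have h3 : (n : ℝ) ≤ k * 2 ^ g0 := by linarith
    exact_mod_cast h3
  have hn1g : n1 ≤ k * 2 ^ g := by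
    rcases le_total (g0 + 1) k with hc | hc
    · have : g = g0 + 1 := min_eq_left hc
      rw [this]
      calc n1 ≤ n := hn1n
        _ ≤ k * 2 ^ g0 := hng0
        _ ≤ k * 2 ^ (g0 + 1) := by
            apply Nat.mul_le_mul_left
            exact Nat.pow_le_pow_right (by norm_num) (by omega)
    · have : g = k := min_eq_right hc
      rw [this, hn1]
      calc 2 ^ (min h k) - 1 ≤ 2 ^ (min h k) := Nat.sub_le _ _
        _ ≤ 2 ^ k := Nat.pow_le_pow_right (by norm_num) (min_le_right _ _)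
        _ ≤ k * 2 ^ k := Nat.le_mul_of_pos_left _ hk
  obtain ⟨m, hm, A1, hA1⟩ := exists_matrix k L g hk hL hg1 hgk n1 hn1g
  have hL0 : (0 : ℝ) < L := by exact_mod_cast hL
  refine ⟨m, ?_, ?_⟩
  · refine hm.trans ?_
    have h1 : (g : ℝ) ≤ 2 * (1 + lg) := by
      have h2 : (g : ℝ) ≤ g0 + 1 := by
        have : g ≤ g0 + 1 := min_le_left _ _
        exact_mod_cast this
      have h3 := Nat.ceil_lt_add_one hlg0
      rw [← hg0] at h3
      linarith
    have h4 : (g : ℝ) ^ (1 / (L : ℝ)) ≤ 2 * (1 + lg) ^ (1 / (L : ℝ)) := by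
      calc (g : ℝ) ^ (1 / (L : ℝ)) ≤ (2 * (1 + lg)) ^ (1 / (L : ℝ)) :=
            Real.rpow_le_rpow (Nat.cast_nonneg g) h1 (by positivity)
        _ = (2 : ℝ) ^ (1 / (L : ℝ)) * (1 + lg) ^ (1 / (L : ℝ)) :=
            Real.mul_rpow (by norm_num) (by linarith)
        _ ≤ 2 * (1 + lg) ^ (1 / (L : ℝ)) := by
            apply mul_le_mul_of_nonneg_right _ (Real.rpow_nonneg (by linarith) _)
            calc (2 : ℝ) ^ (1 / (L : ℝ)) ≤ (2 : ℝ) ^ (1 : ℝ) := by
                  apply Real.rpow_le_rpow_of_exponent_le (by norm_num)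
                  rw [div_le_one hL0]
                  exact_mod_cast hL
              _ = 2 := Real.rpow_one _
    calc 221184 * (L : ℝ) ^ 3 * k * (g : ℝ) ^ (1 / (L : ℝ)) ≤
          221184 * (L : ℝ) ^ 3 * k * (2 * (1 + lg) ^ (1 / (L : ℝ))) :=
          mul_le_mul_of_nonneg_left h4 (by positivity)
      _ = _ := by ring
  · set 𝒯 : Finset (Finset (Fin n1)) := univ.filter (fun T => T.card = k ∧ IsRooted T) with h𝒯
    obtain ⟨R1, hR1⟩ := decoder A1 𝒯 (4 * L) (by positivity) (by
      intro z hz T hT T' hT'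
      rw [h𝒯, mem_filter] at hT hT'
      apply hA1 z hz (T ∪ T')
      · refine ⟨?_, ?_⟩
        · obtain ⟨r, hr, hr0⟩ := hT.2.2.1
          exact ⟨r, mem_union_left _ hr, hr0⟩
        · intro i hi hi0
          rw [mem_union] at hi
          rcases hi with hi | hi
          · obtain ⟨j, hj, hj2⟩ := hT.2.2.2 i hi hi0
            exact ⟨j, mem_union_left _ hj, hj2⟩
          · obtain ⟨j, hj, hj2⟩ := hT'.2.2.2 i hi hi0
            exact ⟨j, mem_union_right _ hj, hj2⟩
      · have := card_union_le T T'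
        have h1 := hT.2.1
        have h2 := hT'.2.1
        omega)
    refine ⟨fun i j => if hj : j.val < n1 then A1 i ⟨j.val, hj⟩ else 0,
      fun y j => if hj : j.val < n1 then R1 y ⟨j.val, hj⟩ else 0, ?_⟩
    rintro x x' ⟨T, hTk, hTr, hTc, hx'⟩
    have hTroot : IsRooted T := ⟨hTr, hTc⟩
    set x1 : Fin n1 → ℝ := fun i => x (Fin.castLE hn1n i) with hx1
    set x1' : Fin n1 → ℝ := fun i => x' (Fin.castLE hn1n i) with hx1'
    have hmv : Matrix.mulVec (fun i j => if hj : j.val < n1 then A1 i ⟨j.val, hj⟩ else 0 :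
        Matrix (Fin m) (Fin n) ℝ) x = A1.mulVec x1 := by
      funext i
      simp only [Matrix.mulVec, dotProduct]
      rw [split_sum n1 n hn1n]
      have h2 : ∑ j ∈ univ.filter (fun j : Fin n => ¬ j.val < n1),
          (if hj : j.val < n1 then A1 i ⟨j.val, hj⟩ else 0) * x j = 0 := by
        apply sum_eq_zero
        intro j hj
        rw [mem_filter] at hj
        rw [dif_neg hj.2, zero_mul]
      rw [h2, add_zero]
      apply sum_congr rfl
      intro j _
      rw [dif_pos (show (Fin.castLE hn1n j).val < n1 from j.2)]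
      rfl
    rw [hmv]
    -- the tree lies in the first levels
    have hTlt : ∀ j ∈ T, j.val < n1 := by
      intro j hj
      have h1 := rooted_lt T hTroot j hj
      rw [hTk] at h1
      have h2 : j.val + 1 < 2 ^ h := by
        have := j.2
        omega
      have h3 : j.val + 1 < 2 ^ (min h k) := by
        rcases le_total h k with hc | hc
        · rwa [min_eq_left hc]
        · rwa [min_eq_right hc]
      omega
    set T1 : Finset (Fin n1) := univ.filter (fun i => Fin.castLE hn1n i ∈ T) with hT1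
    have hmem : ∀ i : Fin n1, i ∈ T1 ↔ Fin.castLE hn1n i ∈ T := by
      intro i
      rw [hT1, mem_filter]
      exact ⟨fun h => h.2, fun h => ⟨mem_univ _, h⟩⟩
    have hcard : T1.card = k := by
      rw [← hTk]
      apply card_bij (fun i _ => Fin.castLE hn1n i)
      · intro i hi
        exact (hmem i).mp hi
      · intro a _ b _ hab
        exact Fin.ext (by simpa [Fin.ext_iff] using hab)
      · intro j hj
        refine ⟨⟨j.val, hTlt j hj⟩, ?_, Fin.ext rfl⟩
        rw [hmem]
        exact hj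
    have hT1root : IsRooted T1 := by
      refine ⟨?_, ?_⟩
      · obtain ⟨r, hr, hr0⟩ := hTr
        refine ⟨⟨r.val, hTlt r hr⟩, ?_, hr0⟩
        rw [hmem]
        exact hr
      · intro i hi hi0
        obtain ⟨j, hj, hj2⟩ := hTc _ ((hmem i).mp hi) hi0
        refine ⟨⟨j.val, hTlt j hj⟩, ?_, hj2⟩
        rw [hmem]
        exact hj
    have hrec := hR1 x1 x1' ⟨T1, mem_filter.mpr ⟨mem_univ _, hcard, hT1root⟩, by
      intro i hi
      apply hx'
      intro hcon
      exact hi ((hmem i).mpr hcon)⟩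
    have h8L : (1 : ℝ) ≤ 8 * L := by
      have : (1 : ℝ) ≤ L := by exact_mod_cast hL
      linarith
    rw [split_sum n1 n hn1n, split_sum n1 n hn1n (fun i => |x' i - x i|)]
    have e1 : ∑ i : Fin n1, |(if hj : (Fin.castLE hn1n i).val < n1 then
        R1 (A1.mulVec x1) ⟨(Fin.castLE hn1n i).val, hj⟩ else 0) - x (Fin.castLE hn1n i)| ≤
        2 * (4 * L) * ∑ i, |x1' i - x1 i| := by
      refine le_trans (le_of_eq ?_) hrec
      apply sum_congr rfl
      intro i _
      rw [dif_pos (show (Fin.castLE hn1n i).val < n1 from i.2)]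
      rfl
    have e2 : ∑ j ∈ univ.filter (fun j : Fin n => ¬ j.val < n1),
        |(if hj : j.val < n1 then R1 (A1.mulVec x1) ⟨j.val, hj⟩ else 0) - x j| =
        ∑ j ∈ univ.filter (fun j : Fin n => ¬ j.val < n1), |x' j - x j| := by
      apply sum_congr rfl
      intro j hj
      rw [mem_filter] at hj
      rw [dif_neg hj.2, hx' j (fun hcon => hj.2 (hTlt j hcon))]
    have e3 : 0 ≤ ∑ j ∈ univ.filter (fun j : Fin n => ¬ j.val < n1), |x' j - x j| :=
      sum_nonneg (fun _ _ => abs_nonneg _)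
    have e4 : ∑ i, |x1' i - x1 i| = ∑ i : Fin n1, |x' (Fin.castLE hn1n i) - x (Fin.castLE hn1n i)| :=
      rfl
    rw [e4] at e1
    nlinarith

end Pool.Agent.H.MP_d546a0_lc
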