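import Mathlib

/-! Existence of hash functions with the expansion property for a given family of sets. -/

namespace Pool.Agent.H.MP_d546a0_lc

set_option linter.unusedSectionVars false

open Finset

section

variable {α : Type*} [Fintype α] [DecidableEq α] {r M : ℕ}

/-- the cells adjacent to the node `i`. -/
def cells (H : α × Fin r → Fin M) (i : α) : Finset (Fin r × Fin M) :=
  univ.image (fun a => (a, H (i, a)))

/-- the cells adjacent to a set of nodes. -/
def nb (H : α × Fin r → Fin M) (S : Finset α) : Finset (Fin r × Fin M) :=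
  S.biUnion (cells H)

lemma card_cells (H : α × Fin r → Fin M) (i : α) : (cells H i).card = r := by
  unfold cells
  rw [card_image_of_injective]
  · simp
  · intro a b h
    exact (Prod.mk.inj h).1

lemma mem_cells (H : α × Fin r → Fin M) (i : α) (c : Fin r × Fin M) :
    c ∈ cells H i ↔ H (i, c.1) = c.2 := by
  unfold cells
  rw [mem_image]
  constructor
  · rintro ⟨a, _, rfl⟩
    rfl
  · intro h
    exact ⟨c.1, mem_univ _, by rw [h]⟩

lemma nb_eq_image (H : α × Fin r → Fin M) (S : Finset α) :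
    nb H S = (S ×ˢ (univ : Finset (Fin r))).image (fun e => (e.2, H e)) := by
  ext c
  unfold nb
  rw [mem_biUnion, mem_image]
  constructor
  · rintro ⟨i, hi, hc⟩
    rw [mem_cells] at hc
    exact ⟨(i, c.1), mem_product.mpr ⟨hi, mem_univ _⟩, by rw [hc]⟩
  · rintro ⟨e, he, rfl⟩
    rw [mem_product] at he
    exact ⟨e.1, he.1, by rw [mem_cells]⟩

/-- a set with a small neighbourhood has many repeated incidences. -/
lemma exists_repeated (H : α × Fin r → Fin M) (S : Finset α) (c : ℕ)
    (h : (nb H S).card + c ≤ r * S.card) :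
    ∃ C0 ∈ powersetCard c (S ×ˢ (univ : Finset (Fin r))),
      ∀ e ∈ C0, ∃ i ∈ S, (i, e.2) ∉ C0 ∧ H (i, e.2) = H e := by
  classical
  set E := S ×ˢ (univ : Finset (Fin r)) with hE
  set κ : α × Fin r → Fin r × Fin M := fun e => (e.2, H e) with hκ
  have hcardE : E.card = r * S.card := by
    rw [hE, card_product]
    simp
    ring
  obtain ⟨R, hRE, hinj, himg⟩ := Finset.exists_subset_injOn_image_eq_of_surjOn (f := κ)
    (E : Set (α × Fin r)) (E.image κ) (by
      rw [Finset.coe_image]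
      exact Set.surjOn_image _ _)
  have hRE' : R ⊆ E := by exact_mod_cast hRE
  have hRcard : R.card = (nb H S).card := by
    rw [nb_eq_image, ← himg, card_image_of_injOn hinj]
  have h1 : c ≤ (E \ R).card := by
    rw [card_sdiff_of_subset hRE', hcardE, hRcard]
    omega
  obtain ⟨C0, hC0, hC0c⟩ := Finset.exists_subset_card_eq h1
  refine ⟨C0, ?_, ?_⟩
  · rw [mem_powersetCard]
    exact ⟨hC0.trans sdiff_subset, hC0c⟩
  · intro e he
    have heE : e ∈ E := (hC0.trans sdiff_subset) he
    have h2 : κ e ∈ R.image κ := by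
      rw [himg]
      exact mem_image_of_mem κ heE
    rw [mem_image] at h2
    obtain ⟨e', he', hee⟩ := h2
    have h3 : e'.2 = e.2 := (Prod.mk.inj hee).1
    have h4 : H e' = H e := (Prod.mk.inj hee).2
    have h5 : (e'.1, e.2) = e' := by rw [← h3]
    refine ⟨e'.1, ?_, ?_, ?_⟩
    · have := hRE' he'
      rw [hE, mem_product] at this
      exact this.1
    · rw [h5]
      intro hmem
      have := hC0 hmem
      rw [mem_sdiff] at this
      exact this.2 he'
    · rw [h5, h4]

/-- number of functions with prescribed repetitions. -/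
lemma card_repeated (hM : 0 < M) (S : Finset α) (c : ℕ) (C0 : Finset (α × Fin r))
    (hC0 : C0.card = c) :
    (univ.filter (fun H : α × Fin r → Fin M =>
      ∀ e ∈ C0, ∃ i ∈ S, (i, e.2) ∉ C0 ∧ H (i, e.2) = H e)).card ≤
      M ^ (Fintype.card (α × Fin r) - c) * S.card ^ c := by
  classical
  have : NeZero M := ⟨hM.ne'⟩
  set Φ : ({e : α × Fin r // e ∉ C0} → Fin M) × ({e : α × Fin r // e ∈ C0} → {i : α // i ∈ S}) →
      (α × Fin r → Fin M) := fun hg e =>
    if he : e ∈ C0 then
      (if h' : (((hg.2 ⟨e, he⟩ : {i : α // i ∈ S}) : α), e.2) ∈ C0 then 0 else hg.1 ⟨_, h'⟩)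
    else hg.1 ⟨e, he⟩ with hΦ
  have h1 : (univ.filter (fun H : α × Fin r → Fin M =>
      ∀ e ∈ C0, ∃ i ∈ S, (i, e.2) ∉ C0 ∧ H (i, e.2) = H e)) ⊆ univ.image Φ := by
    intro H hH
    rw [mem_filter] at hH
    rw [mem_image]
    choose g hg1 hg2 hg3 using hH.2
    refine ⟨(fun e => H e.1, fun e => ⟨g e.1 e.2, hg1 e.1 e.2⟩), mem_univ _, ?_⟩
    funext e
    simp only [hΦ]
    by_cases he : e ∈ C0
    · rw [dif_pos he, dif_neg (hg2 e he)]
      exact hg3 e he
    · rw [dif_neg he]
  refine (card_le_card h1).trans ((card_image_le).trans ?_)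
  rw [card_univ, Fintype.card_prod, Fintype.card_fun, Fintype.card_fun, Fintype.card_fin,
    Fintype.card_coe]
  have h2 : Fintype.card {e : α × Fin r // e ∈ C0} = c := by rw [Fintype.card_coe, hC0]
  have h3 : Fintype.card {e : α × Fin r // e ∉ C0} = Fintype.card (α × Fin r) - c := by
    rw [Fintype.card_subtype_compl, h2]
  rw [h2, h3]

/-- **Existence of good hash functions.** -/
theorem exists_hash (hM : 0 < M) (𝓢 : Finset (Finset α)) (c : Finset α → ℕ)
    (hc : ∀ S ∈ 𝓢, c S ≤ r * S.card)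
    (hsum : ∑ S ∈ 𝓢, (((r * S.card).choose (c S) : ℕ) : ℝ) * ((S.card : ℝ) / M) ^ (c S) < 1) :
    ∃ H : α × Fin r → Fin M, ∀ S ∈ 𝓢, r * S.card < (nb H S).card + c S := by
  classical
  by_contra hcon
  push Not at hcon
  set N := Fintype.card (α × Fin r) with hN
  -- all functions are bad
  have h1 : (univ : Finset (α × Fin r → Fin M)) ⊆ 𝓢.biUnion (fun S =>
      (powersetCard (c S) (S ×ˢ (univ : Finset (Fin r)))).biUnion (fun C0 =>
        univ.filter (fun H : α × Fin r → Fin M =>
          ∀ e ∈ C0, ∃ i ∈ S, (i, e.2) ∉ C0 ∧ H (i, e.2) = H e))) := by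
    intro H _
    obtain ⟨S, hS, hbad⟩ := hcon H
    obtain ⟨C0, hC0, h2⟩ := exists_repeated H S (c S) hbad
    rw [mem_biUnion]
    refine ⟨S, hS, ?_⟩
    rw [mem_biUnion]
    exact ⟨C0, hC0, mem_filter.mpr ⟨mem_univ _, h2⟩⟩
  have h2 := card_le_card h1
  rw [card_univ, Fintype.card_fun, Fintype.card_fin, ← hN] at h2
  have h3 : (𝓢.biUnion (fun S =>
      (powersetCard (c S) (S ×ˢ (univ : Finset (Fin r)))).biUnion (fun C0 =>
        univ.filter (fun H : α × Fin r → Fin M =>
          ∀ e ∈ C0, ∃ i ∈ S, (i, e.2) ∉ C0 ∧ H (i, e.2) = H e)))).card ≤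
      ∑ S ∈ 𝓢, (r * S.card).choose (c S) * (M ^ (N - c S) * S.card ^ (c S)) := by
    refine card_biUnion_le.trans (sum_le_sum ?_)
    intro S hS
    refine card_biUnion_le.trans ?_
    have h4 : ∀ C0 ∈ powersetCard (c S) (S ×ˢ (univ : Finset (Fin r))),
        (univ.filter (fun H : α × Fin r → Fin M =>
          ∀ e ∈ C0, ∃ i ∈ S, (i, e.2) ∉ C0 ∧ H (i, e.2) = H e)).card ≤
        M ^ (N - c S) * S.card ^ (c S) := by
      intro C0 hC0
      rw [mem_powersetCard] at hC0
      exact card_repeated hM S (c S) C0 hC0.2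
    refine (sum_le_sum h4).trans ?_
    rw [sum_const, card_powersetCard, card_product]
    simp only [card_univ, Fintype.card_fin, smul_eq_mul]
    rw [mul_comm S.card r]
  have h5 := h2.trans h3
  have hMpos : (0 : ℝ) < M := by exact_mod_cast hM
  have h6 : (M : ℝ) ^ N ≤ ∑ S ∈ 𝓢, (((r * S.card).choose (c S) : ℕ) : ℝ) *
      ((M : ℝ) ^ (N - c S) * (S.card : ℝ) ^ (c S)) := by exact_mod_cast h5
  have h7 : ∀ S ∈ 𝓢, (((r * S.card).choose (c S) : ℕ) : ℝ) *
      ((M : ℝ) ^ (N - c S) * (S.card : ℝ) ^ (c S)) =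
      (M : ℝ) ^ N * ((((r * S.card).choose (c S) : ℕ) : ℝ) * ((S.card : ℝ) / M) ^ (c S)) := by
    intro S hS
    have h8 : c S ≤ N := by
      refine (hc S hS).trans ?_
      rw [hN, Fintype.card_prod, Fintype.card_fin, mul_comm]
      exact Nat.mul_le_mul_right r (card_le_univ S)
    have h9 : (M : ℝ) ^ N = (M : ℝ) ^ (N - c S) * (M : ℝ) ^ (c S) := by
      rw [← pow_add]
      congr 1
      omega
    rw [h9, div_pow]
    field_simp
  rw [sum_congr rfl h7, ← mul_sum] at h6
  have h10 : 0 < (M : ℝ) ^ N := by positivity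
  nlinarith

end

end Pool.Agent.H.MP_d546a0_lc
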