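import Pool.Agent.H.MP_d546a0_lc.Peel

/-! Combining the layers: the null space inequality. -/

namespace Pool.Agent.H.MP_d546a0_lc

set_option linter.unusedSectionVars false

open Finset

variable {α : Type*} [Fintype α] [DecidableEq α]

theorem layers_nsp (L : ℕ) (hL : 1 ≤ L) (ρ b s' M : ℕ → ℕ) (hρ : ∀ l < L, 1 ≤ ρ l)
    (H : ∀ l, α × Fin (6 * L * ρ l) → Fin (M l)) (T : Finset α) (hT : T.card ≤ b 0)
    (hE : ∀ l < L, ∀ S ⊆ T, s' l ≤ S.card → S.card ≤ b l →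
      6 * L * ρ l * S.card < (nb (H l) S).card + ρ l * S.card)
    (hs : ∀ l, l + 1 < L → 2 * s' l ≤ b (l + 1)) (hsb : ∀ l < L, s' l ≤ b l)
    (hlast : s' (L - 1) = 1) (z : α → ℝ)
    (hz : ∀ l < L, ∀ c : Fin (6 * L * ρ l) × Fin (M l),
      ∑ j, (if H l (j, c.1) = c.2 then z j else 0) = 0) :
    ∑ i, |z i| ≤ 4 * L * ∑ i ∈ Tᶜ, |z i| := by
  classical
  have hL0 : (0 : ℝ) < L := by exact_mod_cast hL
  set τ : ℝ := ∑ i ∈ T, |z i| with hτ
  set σ : ℝ := ∑ i ∈ Tᶜ, |z i| with hσ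
  have hτ0 : 0 ≤ τ := sum_nonneg (fun _ _ => abs_nonneg _)
  have hσ0 : 0 ≤ σ := sum_nonneg (fun _ _ => abs_nonneg _)
  have hsub : ∀ Q : Finset α, (1 / (L : ℝ)) * ∑ i ∈ T \ Q, |z i| ≤ (1 / (L : ℝ)) * τ := by
    intro Q
    apply mul_le_mul_of_nonneg_left _ (by positivity)
    exact sum_le_sum_of_subset_of_nonneg sdiff_subset (fun _ _ _ => abs_nonneg _)
  have key : ∀ l, l < L → ∃ S ⊆ T, S.card < s' l ∧
      2 * ∑ i ∈ T \ S, |z i| ≤ (l + 1) * ((1 / (L : ℝ)) * τ + 3 * σ) := by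
    intro l
    induction l with
    | zero =>
      intro hl
      obtain ⟨S1, h1, h2, h3⟩ := layer L (ρ 0) (b 0) (s' 0) hL (hρ 0 hl) (H 0) T T (Subset.refl _)
        hT (hE 0 hl) (by simp) z (hz 0 hl)
      refine ⟨S1, h1, h2, ?_⟩
      have h4 := hsub T
      push_cast
      linarith
    | succ l ih =>
      intro hl
      obtain ⟨S, hST, hSc, hSs⟩ := ih (by omega)
      obtain ⟨Q, hSQ, hQT, hQb, hleak⟩ := closure_step L (ρ (l + 1)) (b (l + 1)) (H (l + 1)) T S hST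
        (by
          have := hs l hl
          omega)
        (fun X hX hXc => hE (l + 1) hl X hX (by rw [hXc]; exact hsb _ hl) (by omega))
      obtain ⟨S1, h1, h2, h3⟩ := layer L (ρ (l + 1)) (b (l + 1)) (s' (l + 1)) hL (hρ _ hl)
        (H (l + 1)) T Q hQT hQb (hE (l + 1) hl) hleak z (hz (l + 1) hl)
      refine ⟨S1, h1.trans hQT, h2, ?_⟩
      have h4 := hsub Q
      have h5 : ∑ i ∈ T \ S1, |z i| ≤ ∑ i ∈ T \ S, |z i| + ∑ i ∈ Q \ S1, |z i| := by
        have h6 : T \ S1 ⊆ (T \ S) ∪ (Q \ S1) := by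
          intro i hi
          rw [mem_sdiff] at hi
          rw [mem_union, mem_sdiff, mem_sdiff]
          by_cases hiS : i ∈ S
          · exact Or.inr ⟨hSQ hiS, hi.2⟩
          · exact Or.inl ⟨hi.1, hiS⟩
        calc ∑ i ∈ T \ S1, |z i| ≤ ∑ i ∈ (T \ S) ∪ (Q \ S1), |z i| :=
              sum_le_sum_of_subset_of_nonneg h6 (fun _ _ _ => abs_nonneg _)
          _ ≤ ∑ i ∈ T \ S, |z i| + ∑ i ∈ Q \ S1, |z i| := by
              have h7 := sum_union_inter (s₁ := T \ S) (s₂ := Q \ S1) (f := fun i => |z i|)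
              have h8 : 0 ≤ ∑ i ∈ (T \ S) ∩ (Q \ S1), |z i| :=
                sum_nonneg (fun _ _ => abs_nonneg _)
              linarith
      push_cast
      linarith
  obtain ⟨S, hST, hSc, hSs⟩ := key (L - 1) (by omega)
  have hS0 : S = ∅ := by
    rw [hlast] at hSc
    exact card_eq_zero.mp (by omega)
  rw [hS0, sdiff_empty] at hSs
  have hcast : (((L - 1 : ℕ) : ℝ) + 1) = L := by
    have : ((L - 1 : ℕ) : ℝ) = (L : ℝ) - 1 := by
      rw [Nat.cast_sub hL]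
      simp
    rw [this]
    ring
  rw [hcast] at hSs
  have h1 : (L : ℝ) * ((1 / (L : ℝ)) * τ + 3 * σ) = τ + 3 * L * σ := by
    field_simp
  rw [h1] at hSs
  have h2 : τ ≤ 3 * L * σ := by linarith
  have h3 : ∑ i, |z i| = τ + σ := (sum_add_sum_compl T _).symm
  rw [h3]
  have h4 : (1 : ℝ) ≤ L := by exact_mod_cast hL
  nlinarith

end Pool.Agent.H.MP_d546a0_lc
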