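import Pool.Agent.H.MP_d546a0_lc.Hash

/-! One layer of the peeling argument. -/

namespace Pool.Agent.H.MP_d546a0_lc

set_option linter.unusedSectionVars false

open Finset

section

variable {α : Type*} [Fintype α] [DecidableEq α] {r M : ℕ}

lemma card_nb_le (H : α × Fin r → Fin M) (S : Finset α) : (nb H S).card ≤ r * S.card := by
  unfold nb
  refine card_biUnion_le.trans ?_
  simp_rw [card_cells]
  rw [sum_const, smul_eq_mul, mul_comm]

lemma nb_insert (H : α × Fin r → Fin M) (i : α) (S : Finset α) :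
    nb H (insert i S) = cells H i ∪ nb H S := by
  unfold nb
  rw [biUnion_insert]

lemma nb_union (H : α × Fin r → Fin M) (S S' : Finset α) :
    nb H (S ∪ S') = nb H S ∪ nb H S' := by
  unfold nb
  rw [union_biUnion]

lemma cells_subset_nb (H : α × Fin r → Fin M) {i : α} {S : Finset α} (hi : i ∈ S) :
    cells H i ⊆ nb H S := by
  unfold nb
  exact subset_biUnion_of_mem (cells H) hi

end

section

variable {α : Type*} [Fintype α] [DecidableEq α] {M : ℕ}

lemma closure_step (L ρ b : ℕ) (H : α × Fin (6 * L * ρ) → Fin M)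
    (T S0 : Finset α) (hS0 : S0 ⊆ T) (hb : 2 * S0.card ≤ b)
    (hE : ∀ S ⊆ T, S.card = b → 6 * L * ρ * S.card < (nb H S).card + ρ * S.card) :
    ∃ Q, S0 ⊆ Q ∧ Q ⊆ T ∧ Q.card ≤ b ∧ ∀ i ∈ T \ Q, (cells H i ∩ nb H Q).card ≤ 2 * ρ := by
  classical
  set 𝒬 := T.powerset.filter (fun X => S0 ⊆ X ∧ X.card ≤ b ∧
    (nb H X).card + 2 * ρ * X.card ≤ 6 * L * ρ * X.card + 2 * ρ * S0.card) with h𝒬
  have hne : 𝒬.Nonempty := by
    refine ⟨S0, ?_⟩
    rw [h𝒬, mem_filter, mem_powerset]
    have := card_nb_le H S0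
    exact ⟨hS0, Subset.refl _, by omega, by omega⟩
  obtain ⟨Q, hQ, hmax⟩ := exists_max_image 𝒬 card hne
  rw [h𝒬, mem_filter, mem_powerset] at hQ
  obtain ⟨hQT, hS0Q, hQb, hQi⟩ := hQ
  have hlt : Q.card < b := by
    rcases Nat.lt_or_ge Q.card b with h | h
    · exact h
    · exfalso
      have hb' : Q.card = b := le_antisymm hQb h
      have h1 := hE Q hQT hb'
      have h2 : ρ * (2 * S0.card) ≤ ρ * Q.card := Nat.mul_le_mul_left ρ (by omega)
      nlinarith
  refine ⟨Q, hS0Q, hQT, hQb, ?_⟩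
  intro i hi
  rw [mem_sdiff] at hi
  by_contra hcon
  push Not at hcon
  have h1 : (insert i Q) ∈ 𝒬 := by
    rw [h𝒬, mem_filter, mem_powerset]
    refine ⟨insert_subset hi.1 hQT, hS0Q.trans (subset_insert _ _), ?_, ?_⟩
    · rw [card_insert_of_notMem hi.2]
      omega
    · rw [card_insert_of_notMem hi.2, nb_insert]
      have h2 := card_union_add_card_inter (cells H i) (nb H Q)
      rw [card_cells] at h2
      have h3 : 6 * L * ρ * (Q.card + 1) = 6 * L * ρ * Q.card + 6 * L * ρ := by ring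
      have h4 : 2 * ρ * (Q.card + 1) = 2 * ρ * Q.card + 2 * ρ := by ring
      rw [h3, h4]
      omega
  have h2 := hmax _ h1
  rw [card_insert_of_notMem hi.2] at h2
  omega

/-- the sign of a real number, never zero. -/
noncomputable def sgn (t : ℝ) : ℝ := if 0 ≤ t then 1 else -1

lemma mul_sgn (t : ℝ) : t * sgn t = |t| := by
  unfold sgn
  split_ifs with h
  · rw [mul_one, abs_of_nonneg h]
  · rw [abs_of_neg (not_le.mp h)]
    ring

lemma abs_sgn (t : ℝ) : |sgn t| = 1 := by
  unfold sgn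
  split_ifs <;> simp

theorem layer (L ρ b s' : ℕ) (hL : 1 ≤ L) (hρ : 1 ≤ ρ) (H : α × Fin (6 * L * ρ) → Fin M)
    (T Q : Finset α) (hQT : Q ⊆ T) (hQb : Q.card ≤ b)
    (hE : ∀ S ⊆ T, s' ≤ S.card → S.card ≤ b →
      6 * L * ρ * S.card < (nb H S).card + ρ * S.card)
    (hleak : ∀ i ∈ T \ Q, (cells H i ∩ nb H Q).card ≤ 2 * ρ)
    (z : α → ℝ)
    (hz : ∀ c : Fin (6 * L * ρ) × Fin M, ∑ j, (if H (j, c.1) = c.2 then z j else 0) = 0) :
    ∃ S1 ⊆ Q, S1.card < s' ∧
      2 * ∑ i ∈ Q \ S1, |z i| ≤ (1 / (L : ℝ)) * ∑ i ∈ T \ Q, |z i| + 3 * ∑ i ∈ Tᶜ, |z i| := by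
  classical
  set 𝒮 := Q.powerset.filter (fun X => (nb H X).card ≤ 5 * L * ρ * X.card) with h𝒮
  have hne : 𝒮.Nonempty := by
    refine ⟨∅, ?_⟩
    rw [h𝒮, mem_filter, mem_powerset]
    refine ⟨empty_subset _, ?_⟩
    simp [nb]
  obtain ⟨S1, hS1, hmax⟩ := exists_max_image 𝒮 card hne
  rw [h𝒮, mem_filter, mem_powerset] at hS1
  obtain ⟨hS1Q, hS1n⟩ := hS1
  refine ⟨S1, hS1Q, ?_, ?_⟩
  · by_contra hcon
    push Not at hcon
    have h1 := hE S1 (hS1Q.trans hQT) hcon ((card_le_card hS1Q).trans hQb)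
    have h2 : ρ * S1.card ≤ L * ρ * S1.card := by
      calc ρ * S1.card = 1 * ρ * S1.card := by ring
        _ ≤ L * ρ * S1.card := by gcongr
    nlinarith
  -- Hall's condition
  set R := Q \ S1 with hR
  set t : ({i : α // i ∈ R} × Fin (5 * L * ρ)) → Finset (Fin (6 * L * ρ) × Fin M) :=
    fun x => cells H x.1 \ nb H S1 with ht
  have hall : ∀ X : Finset ({i : α // i ∈ R} × Fin (5 * L * ρ)), X.card ≤ (X.biUnion t).card := by
    intro X
    rcases X.eq_empty_or_nonempty with rfl | hX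
    · simp
    set S' : Finset α := X.image (fun x => (x.1 : α)) with hS'
    have hS'R : S' ⊆ R := by
      intro i hi
      rw [hS', mem_image] at hi
      obtain ⟨x, _, rfl⟩ := hi
      exact x.1.2
    have hS'ne : S'.Nonempty := hX.image _
    have hXcard : X.card ≤ 5 * L * ρ * S'.card := by
      have h1 : X.card ≤ (S' ×ˢ (univ : Finset (Fin (5 * L * ρ)))).card := by
        apply card_le_card_of_injOn (fun x => ((x.1 : α), x.2))
        · intro x hx
          rw [Finset.mem_coe, mem_product]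
          exact ⟨mem_image_of_mem _ hx, mem_univ _⟩
        · intro x _ y _ hxy
          have h2 := (Prod.mk.inj hxy).1
          have h3 := (Prod.mk.inj hxy).2
          exact Prod.ext (Subtype.ext h2) h3
      rw [card_product, card_univ, Fintype.card_fin] at h1
      linarith [mul_comm S'.card (5 * L * ρ)]
    have hbi : X.biUnion t = nb H S' \ nb H S1 := by
      ext c
      rw [mem_biUnion, mem_sdiff]
      constructor
      · rintro ⟨x, hx, hc⟩
        simp only [ht] at hc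
        rw [mem_sdiff] at hc
        exact ⟨cells_subset_nb H (mem_image_of_mem _ hx) hc.1, hc.2⟩
      · rintro ⟨h1, h2⟩
        unfold nb at h1
        rw [mem_biUnion] at h1
        obtain ⟨i, hi, hci⟩ := h1
        rw [hS', mem_image] at hi
        obtain ⟨x, hx, rfl⟩ := hi
        refine ⟨x, hx, ?_⟩
        simp only [ht]
        rw [mem_sdiff]
        exact ⟨hci, h2⟩
    have hdisj : Disjoint S1 S' := by
      rw [Finset.disjoint_left]
      intro i hi hi'
      have := hS'R hi'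
      rw [hR, mem_sdiff] at this
      exact this.2 hi
    have hbig : 5 * L * ρ * (S1.card + S'.card) < (nb H (S1 ∪ S')).card := by
      by_contra hcon
      push Not at hcon
      have h1 : S1 ∪ S' ∈ 𝒮 := by
        rw [h𝒮, mem_filter, mem_powerset]
        refine ⟨union_subset hS1Q (hS'R.trans sdiff_subset), ?_⟩
        rw [card_union_of_disjoint hdisj]
        exact hcon
      have h2 := hmax _ h1
      rw [card_union_of_disjoint hdisj] at h2
      have h3 := hS'ne.card_pos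
      omega
    have h4 : (nb H (S1 ∪ S')).card ≤ (nb H S1).card + (nb H S' \ nb H S1).card := by
      rw [nb_union]
      have h5 : nb H S1 ∪ nb H S' = nb H S1 ∪ (nb H S' \ nb H S1) := by
        rw [union_sdiff_self_eq_union]
      rw [h5]
      exact card_union_le _ _
    rw [hbi]
    have h6 : 5 * L * ρ * (S1.card + S'.card) = 5 * L * ρ * S1.card + 5 * L * ρ * S'.card := by ring
    omega
  obtain ⟨f, hfinj, hft⟩ := (Finset.all_card_le_biUnion_card_iff_exists_injective t).mp hall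
  -- the dual vector
  set φ : Fin (6 * L * ρ) × Fin M → ℝ := fun c =>
    if h : ∃ x, f x = c then sgn (z (Classical.choose h).1) else 0 with hφ
  have hφf : ∀ x, φ (f x) = sgn (z x.1) := by
    intro x
    have hex : ∃ y, f y = f x := ⟨x, rfl⟩
    simp only [hφ]
    rw [dif_pos hex]
    have h1 := hfinj (Classical.choose_spec hex)
    rw [h1]
  have hφ1 : ∀ c, |φ c| ≤ 1 := by
    intro c
    simp only [hφ]
    split_ifs with h
    · rw [abs_sgn]
    · simp
  have hφ0 : ∀ c, φ c ≠ 0 → c ∈ nb H Q ∧ c ∉ nb H S1 := by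
    intro c hc
    by_cases h : ∃ x, f x = c
    · obtain ⟨x, rfl⟩ := h
      have h1 := hft x
      simp only [ht] at h1
      rw [mem_sdiff] at h1
      have h2 : (x.1 : α) ∈ Q := (mem_sdiff.mp (show (x.1 : α) ∈ Q \ S1 from x.1.2)).1
      exact ⟨cells_subset_nb H h2 h1.1, h1.2⟩
    · exfalso
      apply hc
      simp only [hφ]
      rw [dif_neg h]
  set g : α → ℝ := fun j => ∑ c ∈ cells H j, φ c with hg
  have hgz : ∑ j, z j * g j = 0 := by
    have h1 : ∀ j, z j * g j = ∑ c : Fin (6 * L * ρ) × Fin M,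
        φ c * (if H (j, c.1) = c.2 then z j else 0) := by
      intro j
      simp only [hg]
      rw [mul_sum, ← Finset.sum_subset (Finset.subset_univ (cells H j))]
      · apply sum_congr rfl
        intro c hc
        rw [mem_cells] at hc
        rw [if_pos hc]
        ring
      · intro c _ hc
        rw [mem_cells] at hc
        rw [if_neg hc, mul_zero]
    simp_rw [h1]
    rw [sum_comm]
    apply sum_eq_zero
    intro c _
    rw [← mul_sum, hz c, mul_zero]
  have hgS1 : ∀ i ∈ S1, g i = 0 := by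
    intro i hi
    apply sum_eq_zero
    intro c hc
    by_contra hne
    exact (hφ0 c hne).2 (cells_subset_nb H hi hc)
  have hgall : ∀ i, |g i| ≤ 6 * L * ρ := by
    intro i
    calc |g i| ≤ ∑ c ∈ cells H i, |φ c| := abs_sum_le_sum_abs _ _
      _ ≤ ∑ c ∈ cells H i, (1 : ℝ) := sum_le_sum (fun c _ => hφ1 c)
      _ = 6 * L * ρ := by
          rw [sum_const, card_cells]
          simp
  have hgTQ : ∀ i ∈ T \ Q, |g i| ≤ 2 * ρ := by
    intro i hi
    have h1 : g i = ∑ c ∈ cells H i ∩ nb H Q, φ c := by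
      simp only [hg]
      symm
      apply Finset.sum_subset inter_subset_left
      intro c hc hc'
      by_contra hne
      exact hc' (mem_inter.mpr ⟨hc, (hφ0 c hne).1⟩)
    rw [h1]
    calc |∑ c ∈ cells H i ∩ nb H Q, φ c| ≤ ∑ c ∈ cells H i ∩ nb H Q, |φ c| :=
          abs_sum_le_sum_abs _ _
      _ ≤ ∑ c ∈ cells H i ∩ nb H Q, (1 : ℝ) := sum_le_sum (fun c _ => hφ1 c)
      _ = (((cells H i ∩ nb H Q).card : ℕ) : ℝ) := by simp
      _ ≤ ((2 * ρ : ℕ) : ℝ) := by exact_mod_cast hleak i hi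
      _ = 2 * ρ := by push_cast; ring
  have hgR : ∀ i ∈ R, 4 * L * ρ * |z i| ≤ z i * g i := by
    intro i hi
    set P : Finset (Fin (6 * L * ρ) × Fin M) :=
      univ.image (fun u : Fin (5 * L * ρ) => f (⟨i, hi⟩, u)) with hP
    have hPc : P.card = 5 * L * ρ := by
      rw [hP, card_image_of_injective]
      · simp
      · intro u v huv
        have := hfinj huv
        exact (Prod.mk.inj this).2
    have hPsub : P ⊆ cells H i := by
      intro c hc
      rw [hP, mem_image] at hc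
      obtain ⟨u, _, rfl⟩ := hc
      have h1 := hft (⟨i, hi⟩, u)
      simp only [ht] at h1
      exact (mem_sdiff.mp h1).1
    have hPsum : ∑ c ∈ P, φ c = 5 * L * ρ * sgn (z i) := by
      have h1 : ∀ c ∈ P, φ c = sgn (z i) := by
        intro c hc
        rw [hP, mem_image] at hc
        obtain ⟨u, _, rfl⟩ := hc
        rw [hφf]
      rw [sum_congr rfl h1, sum_const, hPc, nsmul_eq_mul]
      push_cast
      ring
    have hsplit : g i = ∑ c ∈ P, φ c + ∑ c ∈ cells H i \ P, φ c := by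
      simp only [hg]
      rw [add_comm, sum_sdiff hPsub]
    have hrest : |∑ c ∈ cells H i \ P, φ c| ≤ L * ρ := by
      calc |∑ c ∈ cells H i \ P, φ c| ≤ ∑ c ∈ cells H i \ P, |φ c| := abs_sum_le_sum_abs _ _
        _ ≤ ∑ c ∈ cells H i \ P, (1 : ℝ) := sum_le_sum (fun c _ => hφ1 c)
        _ = (((cells H i \ P).card : ℕ) : ℝ) := by simp
        _ = ((L * ρ : ℕ) : ℝ) := by
            rw [card_sdiff_of_subset hPsub, card_cells, hPc]
            congr 1
            have : 6 * L * ρ = 5 * L * ρ + L * ρ := by ring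
            omega
        _ = L * ρ := by push_cast; ring
    rw [hsplit, mul_add, hPsum]
    have h2 : z i * (5 * L * ρ * sgn (z i)) = 5 * L * ρ * |z i| := by
      rw [← mul_sgn]
      ring
    have h3 : |z i * ∑ c ∈ cells H i \ P, φ c| ≤ |z i| * (L * ρ) := by
      rw [abs_mul]
      exact mul_le_mul_of_nonneg_left hrest (abs_nonneg _)
    have h4 := (abs_le.mp h3).1
    rw [h2]
    linarith
  -- conclusion
  have hsplit1 : ∑ j, z j * g j = ∑ j ∈ T, z j * g j + ∑ j ∈ Tᶜ, z j * g j :=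
    (sum_add_sum_compl T _).symm
  have hsplit2 : ∑ j ∈ T, z j * g j = ∑ j ∈ T \ Q, z j * g j + ∑ j ∈ Q, z j * g j :=
    (sum_sdiff hQT).symm
  have hsplit3 : ∑ j ∈ Q, z j * g j = ∑ j ∈ R, z j * g j + ∑ j ∈ S1, z j * g j :=
    (sum_sdiff hS1Q).symm
  have e1 : ∑ j ∈ S1, z j * g j = 0 := by
    apply sum_eq_zero
    intro j hj
    rw [hgS1 j hj, mul_zero]
  have e2 : 4 * L * ρ * ∑ j ∈ R, |z j| ≤ ∑ j ∈ R, z j * g j := by
    rw [mul_sum]
    exact sum_le_sum hgR
  have e3 : -(2 * ρ * ∑ j ∈ T \ Q, |z j|) ≤ ∑ j ∈ T \ Q, z j * g j := by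
    rw [mul_sum, ← sum_neg_distrib]
    apply sum_le_sum
    intro j hj
    have h1 : |z j * g j| ≤ |z j| * (2 * ρ) := by
      rw [abs_mul]
      exact mul_le_mul_of_nonneg_left (hgTQ j hj) (abs_nonneg _)
    have := (abs_le.mp h1).1
    linarith
  have e4 : -(6 * L * ρ * ∑ j ∈ Tᶜ, |z j|) ≤ ∑ j ∈ Tᶜ, z j * g j := by
    rw [mul_sum, ← sum_neg_distrib]
    apply sum_le_sum
    intro j _
    have h1 : |z j * g j| ≤ |z j| * (6 * L * ρ) := by
      rw [abs_mul]
      exact mul_le_mul_of_nonneg_left (hgall j) (abs_nonneg _)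
    have := (abs_le.mp h1).1
    linarith
  have hLρ : (0 : ℝ) < 2 * L * ρ := by
    have h1 : (0 : ℝ) < L := by exact_mod_cast hL
    have h2 : (0 : ℝ) < ρ := by exact_mod_cast hρ
    positivity
  have e5 : 4 * L * ρ * ∑ j ∈ R, |z j| ≤
      2 * ρ * ∑ j ∈ T \ Q, |z j| + 6 * L * ρ * ∑ j ∈ Tᶜ, |z j| := by
    linarith
  have hL0 : (0 : ℝ) < L := by exact_mod_cast hL
  have e6 : 2 * L * ρ * (2 * ∑ j ∈ R, |z j|) ≤
      2 * L * ρ * ((1 / (L : ℝ)) * ∑ i ∈ T \ Q, |z i| + 3 * ∑ i ∈ Tᶜ, |z i|) := by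
    have h1 : 2 * L * ρ * ((1 / (L : ℝ)) * ∑ i ∈ T \ Q, |z i| + 3 * ∑ i ∈ Tᶜ, |z i|) =
        2 * ρ * ∑ j ∈ T \ Q, |z j| + 6 * L * ρ * ∑ j ∈ Tᶜ, |z j| := by
      field_simp
      ring
    rw [h1]
    linarith
  exact le_of_mul_le_mul_left e6 hLρ

end

end Pool.Agent.H.MP_d546a0_lc
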